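import Pool.Agent.Lib.MP_f9aece_nt_j4.Stmts

/-!
# JointFour, module I: pointwise inequalities
-/

set_option autoImplicit false

namespace Pool.Agent.Lib.J4

open Complex
open Pool.Agent.Lib.MP_f9aece_nt (DP ev PP expo EE norm_exp_le norm_EE_le norm_EE_le_large)

namespace PtI

lemma ev_expo (t : ℝ) (c : ℝ) (M : ℕ) (I : Finset ℕ) :
    ev t (expo c M I) = EE M (c * ev t (PP I)) := by
  rw [expo, map_sum, EE]
  refine Finset.sum_congr rfl fun r _ => ?_
  rw [map_smul, map_pow, Complex.real_smul, mul_pow]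
  push_cast
  ring

/-- the error exponent of a group -/
noncomputable def dl (v g : ℕ) : ℝ := Real.exp (-(2 * (rg v g : ℝ)))

lemma dl_nonneg (v g : ℕ) : 0 ≤ dl v g := (Real.exp_pos _).le

lemma rg_pos {v : ℕ} (hv : 1 ≤ v) (g : ℕ) : 1 ≤ rg v g := by
  unfold rg
  exact Nat.mul_pos hv (Nat.succ_pos g)

lemma sum_dl_le {v : ℕ} (hv : 1 ≤ v) (s : Finset ℕ) : ∑ g ∈ s, dl v g ≤ Real.exp (-(v : ℝ)) := by
  have hv' : (1 : ℝ) ≤ v := by exact_mod_cast hv
  set x : ℝ := Real.exp (-(2 * (v : ℝ))) with hx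
  have hx0 : 0 < x := Real.exp_pos _
  have hxe : x = Real.exp (-(v : ℝ)) * Real.exp (-(v : ℝ)) := by
    rw [hx, ← Real.exp_add]; congr 1; ring
  have hy : Real.exp (-(v : ℝ)) ≤ 1 / 2 := by
    have h1 : Real.exp (-(v : ℝ)) ≤ Real.exp (-1) := Real.exp_le_exp.mpr (by linarith)
    have h2 : Real.exp (-1) ≤ 1 / 2 := by
      rw [Real.exp_neg, ← one_div]
      apply one_div_le_one_div_of_le (by norm_num)
      have := Real.add_one_le_exp (1 : ℝ)
      linarith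
    linarith
  have hy0 : 0 < Real.exp (-(v : ℝ)) := Real.exp_pos _
  have hx1 : x ≤ 1 / 4 := by rw [hxe]; nlinarith
  have h1 : ∀ g, dl v g = x * x ^ g := by
    intro g
    unfold dl rg
    rw [← pow_succ', hx, ← Real.exp_nat_mul]
    congr 1
    push_cast
    ring
  have hs : HasSum (fun g : ℕ => x * x ^ g) (x * (1 - x)⁻¹) :=
    (hasSum_geometric_of_lt_one hx0.le (by linarith)).mul_left x
  calc ∑ g ∈ s, dl v g = ∑ g ∈ s, x * x ^ g := Finset.sum_congr rfl fun g _ => h1 g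
    _ ≤ x * (1 - x)⁻¹ := sum_le_hasSum s (fun g _ => by positivity) hs
    _ ≤ x * 2 := by
        gcongr
        rw [inv_le_comm₀ (by linarith) (by norm_num)]
        linarith
    _ ≤ Real.exp (-(v : ℝ)) := by rw [hxe]; nlinarith

/-- the size of the error of the truncated exponential -/
lemma err_le {v : ℕ} (hv : 1 ≤ v) (g : ℕ) : 8 * (1 / 3 : ℝ) ^ (Kg v g + 1) ≤ dl v g := by
  have hr := rg_pos hv g
  have h3 : (1 / 3 : ℝ) ≤ Real.exp (-1) := by
    rw [Real.exp_neg, ← one_div]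
    apply one_div_le_one_div_of_le (Real.exp_pos _)
    linarith [Real.exp_one_lt_d9]
  have h2 : (8 / 3 : ℝ) ≤ Real.exp 1 * 1 := by
    have := Real.exp_one_gt_d9
    linarith
  have h4 : (1 / 3 : ℝ) ^ (Kg v g) ≤ Real.exp (-(3 * (rg v g : ℝ))) := by
    have h5 : 3 * rg v g ≤ Kg v g := by unfold Kg; omega
    calc (1 / 3 : ℝ) ^ (Kg v g) ≤ (1 / 3 : ℝ) ^ (3 * rg v g) :=
          pow_le_pow_of_le_one (by norm_num) (by norm_num) h5
      _ ≤ (Real.exp (-1)) ^ (3 * rg v g) := pow_le_pow_left₀ (by norm_num) h3 _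
      _ = _ := by rw [← Real.exp_nat_mul]; congr 1; push_cast; ring
  have hr' : (1 : ℝ) ≤ rg v g := by exact_mod_cast hr
  calc 8 * (1 / 3 : ℝ) ^ (Kg v g + 1) = 8 / 3 * (1 / 3 : ℝ) ^ (Kg v g) := by rw [pow_succ]; ring
    _ ≤ (Real.exp 1 * 1) * Real.exp (-(3 * (rg v g : ℝ))) := by gcongr
    _ = Real.exp (1 - 3 * (rg v g : ℝ)) := by rw [mul_one, ← Real.exp_add]; congr 1
    _ ≤ dl v g := by unfold dl; exact Real.exp_le_exp.mpr (by linarith)

lemma Rg_pos {v : ℕ} (hv : 1 ≤ v) (g : ℕ) : 0 < Rg v g := by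
  unfold Rg
  have : (1 : ℝ) ≤ rg v g := by exact_mod_cast rg_pos hv g
  linarith

lemma norm_cmul_le {v : ℕ} {g : ℕ} {c : ℝ} (hc : |c| ≤ 3) {P : ℂ} (hP : ‖P‖ ≤ Rg v g) :
    ‖(c : ℂ) * P‖ ≤ ((Kg v g + 1 : ℕ) : ℝ) / 10 := by
  rw [norm_mul, Complex.norm_real, Real.norm_eq_abs]
  have h1 : |c| * ‖P‖ ≤ 3 * Rg v g := by gcongr
  have h2 : 3 * Rg v g ≤ ((Kg v g + 1 : ℕ) : ℝ) / 10 := by
    unfold Rg Kg
    push_cast
    have : (0 : ℝ) ≤ rg v g := Nat.cast_nonneg _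
    linarith
  linarith

/-- the exponential is at most the truncated exponential, up to the error -/
lemma exp_le_EE {v : ℕ} (hv : 1 ≤ v) (g : ℕ) {c : ℝ} (hc : |c| ≤ 3) {P : ℂ} (hP : ‖P‖ ≤ Rg v g) :
    Real.exp (2 * c * P.re) ≤ Real.exp (8 * (1 / 3) ^ (Kg v g + 1)) * ‖EE (Kg v g) (c * P)‖ ^ 2 := by
  have h1 := norm_exp_le (M := Kg v g) (norm_cmul_le hc hP)
  set e : ℝ := 2 * (1 / 3) ^ (Kg v g + 1) with he
  have he0 : 0 ≤ e := by positivity
  have he1 : e ≤ 1 / 2 := by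
    have h2 := err_le hv g
    have h3 : dl v g ≤ 1 := by
      unfold dl; rw [Real.exp_le_one_iff]
      have : (0 : ℝ) ≤ rg v g := Nat.cast_nonneg _
      linarith
    rw [he]; linarith
  have i1 := Pool.Agent.Lib.MP_f9aece_nt.inv_one_sub_le he0 he1
  have s4 : ‖cexp (c * P)‖ ≤ Real.exp (2 * e) * ‖EE (Kg v g) (c * P)‖ := by
    calc ‖cexp (c * P)‖ = 1 * ‖cexp (c * P)‖ := (one_mul _).symm
      _ ≤ (Real.exp (2 * e) * (1 - e)) * ‖cexp (c * P)‖ := by gcongr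
      _ = Real.exp (2 * e) * ((1 - e) * ‖cexp (c * P)‖) := by ring
      _ ≤ _ := by gcongr
  have s5 : ‖cexp (c * P)‖ ^ 2 = Real.exp (2 * c * P.re) := by
    rw [Complex.norm_exp, ← Real.exp_nat_mul]
    congr 1
    simp only [Complex.re_ofReal_mul]
    push_cast
    ring
  rw [← s5]
  calc ‖cexp (c * P)‖ ^ 2 ≤ (Real.exp (2 * e) * ‖EE (Kg v g) (c * P)‖) ^ 2 := by gcongr
    _ = _ := by
      rw [mul_pow, ← Real.exp_nat_mul, he]
      congr 2
      push_cast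
      ring

lemma EE_le_exp {v : ℕ} (g : ℕ) {c : ℝ} (hc : |c| ≤ 3) {P : ℂ} (hP : ‖P‖ ≤ Rg v g) :
    ‖EE (Kg v g) (c * P)‖ ^ 2 ≤ Real.exp (4 * (1 / 3) ^ (Kg v g + 1)) * Real.exp (2 * c * P.re) := by
  have h1 := norm_EE_le (M := Kg v g) (norm_cmul_le hc hP)
  set e : ℝ := 2 * (1 / 3) ^ (Kg v g + 1) with he
  have he0 : 0 ≤ e := by positivity
  have s5 : ‖cexp (c * P)‖ ^ 2 = Real.exp (2 * c * P.re) := by
    rw [Complex.norm_exp, ← Real.exp_nat_mul]
    congr 1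
    simp only [Complex.re_ofReal_mul]
    push_cast
    ring
  have h2 : 1 + e ≤ Real.exp e := by linarith [Real.add_one_le_exp e]
  rw [← s5]
  calc ‖EE (Kg v g) (c * P)‖ ^ 2 ≤ ((1 + e) * ‖cexp (c * P)‖) ^ 2 := by gcongr
    _ ≤ (Real.exp e * ‖cexp (c * P)‖) ^ 2 := by gcongr
    _ = _ := by
      rw [mul_pow, ← Real.exp_nat_mul, he]
      congr 2
      push_cast
      ring

/-- the factor of the powers -/
noncomputable def bt (v g : ℕ) (P : ℂ) : ℝ :=
  Real.exp (8 * Rg v g) / Rg v g ^ (2 * Mg v g) * ‖P ^ Mg v g‖ ^ 2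

lemma bt_nonneg {v : ℕ} (hv : 1 ≤ v) (g : ℕ) (P : ℂ) : 0 ≤ bt v g P := by
  have := Rg_pos hv g
  unfold bt
  positivity

lemma bt_eq {v : ℕ} (g : ℕ) (P : ℂ) :
    bt v g P = Real.exp (8 * Rg v g) * (‖P‖ / Rg v g) ^ (2 * Mg v g) := by
  unfold bt
  rw [norm_pow, ← pow_mul, div_pow, mul_comm (Mg v g) 2]
  ring

lemma one_le_bt {v : ℕ} (hv : 1 ≤ v) (g : ℕ) {P : ℂ} (hP : Rg v g ≤ ‖P‖) : 1 ≤ bt v g P := by
  have hR := Rg_pos hv g
  rw [bt_eq]
  have h1 : 1 ≤ ‖P‖ / Rg v g := by rw [le_div_iff₀ hR]; linarith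
  have h2 : 1 ≤ (‖P‖ / Rg v g) ^ (2 * Mg v g) := one_le_pow₀ h1
  have h3 : 1 ≤ Real.exp (8 * Rg v g) := Real.one_le_exp (by linarith)
  nlinarith

/-- expansion of the sum over the sets of groups -/
lemma sum_eq_prod (c : ℝ) (v p0 : ℕ) (Y : ℝ) (i J : ℕ) (t : ℝ) :
    ∑ s ∈ (Finset.Ico i J).powerset, Wt v s * ‖ev t (Bt c v p0 Y i J s)‖ ^ 2
      = ∏ g ∈ Finset.Ico i J, (bt v g (ev t (Pg v p0 Y g))
          + ‖EE (Kg v g) (c * ev t (Pg v p0 Y g))‖ ^ 2) := by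
  rw [Finset.prod_add]
  refine Finset.sum_congr rfl fun s _ => ?_
  unfold Bt Wt bt
  rw [map_mul, map_prod, map_prod, norm_mul, norm_prod, norm_prod, mul_pow, ← Finset.prod_pow,
    ← Finset.prod_pow, Finset.prod_mul_distrib]
  have h1 : ∀ g, ‖ev t (Eg c v p0 Y g)‖ ^ 2 = ‖EE (Kg v g) (c * ev t (Pg v p0 Y g))‖ ^ 2 := by
    intro g
    unfold Eg Pg
    rw [ev_expo]
  simp only [h1, map_pow]
  ring

lemma prod_bound_nonneg {v : ℕ} (hv : 1 ≤ v) (s : Finset ℕ) (c : ℝ) (P : ℕ → ℂ) :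
    0 ≤ ∏ g ∈ s, (bt v g (P g) + ‖EE (Kg v g) (c * P g)‖ ^ 2) :=
  Finset.prod_nonneg fun g _ => add_nonneg (bt_nonneg hv g _) (sq_nonneg _)

/-- one group, upper half -/
lemma group_le {v : ℕ} (hv : 1 ≤ v) (g : ℕ) {c : ℝ} (hc : |c| ≤ 3) (P : ℂ) {d : ℝ}
    (hd : d = 2 * c) :
    (if ‖P‖ ≤ Rg v g then Real.exp (d * P.re) else 1)
      ≤ Real.exp (dl v g) * (bt v g P + ‖EE (Kg v g) (c * P)‖ ^ 2) := by
  have hb := bt_nonneg hv g P
  have h1 : 1 ≤ Real.exp (dl v g) := Real.one_le_exp (dl_nonneg v g)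
  split_ifs with h
  · rw [hd]
    have h2 := exp_le_EE hv g hc h
    have h3 : Real.exp (8 * (1 / 3) ^ (Kg v g + 1)) ≤ Real.exp (dl v g) :=
      Real.exp_le_exp.mpr (err_le hv g)
    calc Real.exp (2 * c * P.re)
        ≤ Real.exp (8 * (1 / 3) ^ (Kg v g + 1)) * ‖EE (Kg v g) (c * P)‖ ^ 2 := h2
      _ ≤ Real.exp (dl v g) * ‖EE (Kg v g) (c * P)‖ ^ 2 := by gcongr
      _ ≤ _ := by gcongr; linarith
  · have h2 := one_le_bt hv g (le_of_not_ge h)
    have h3 : 0 ≤ ‖EE (Kg v g) (c * P)‖ ^ 2 := sq_nonneg _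
    nlinarith

/-- the product over the groups -/
lemma prod_group_le {v : ℕ} (hv : 1 ≤ v) (s : Finset ℕ) {c : ℝ} (hc : |c| ≤ 3) (P : ℕ → ℂ) {d : ℝ}
    (hd : d = 2 * c) :
    ∏ g ∈ s, (if ‖P g‖ ≤ Rg v g then Real.exp (d * (P g).re) else 1)
      ≤ Real.exp (Real.exp (-(v : ℝ)))
        * ∏ g ∈ s, (bt v g (P g) + ‖EE (Kg v g) (c * P g)‖ ^ 2) := by
  calc ∏ g ∈ s, (if ‖P g‖ ≤ Rg v g then Real.exp (d * (P g).re) else 1)
      ≤ ∏ g ∈ s, (Real.exp (dl v g) * (bt v g (P g) + ‖EE (Kg v g) (c * P g)‖ ^ 2)) := by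
        refine Finset.prod_le_prod (fun g _ => ?_) fun g _ => group_le hv g hc (P g) hd
        split_ifs
        · exact (Real.exp_pos _).le
        · exact zero_le_one
    _ = Real.exp (∑ g ∈ s, dl v g) * ∏ g ∈ s, (bt v g (P g) + ‖EE (Kg v g) (c * P g)‖ ^ 2) := by
        rw [Finset.prod_mul_distrib, Real.exp_sum]
    _ ≤ _ := by
        gcongr
        · exact prod_bound_nonneg hv s c P
        · exact sum_dl_le hv s

lemma GG_pos (a : ℝ) (v p0 : ℕ) (Y : ℝ) (J : ℕ) (t : ℝ) : 0 < GG a v p0 Y J t := by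
  unfold GG
  refine Finset.prod_pos fun g _ => ?_
  split_ifs
  · exact Real.exp_pos _
  · exact one_pos

end PtI

open PtI

/-- the pointwise inequality of the upper half -/
theorem ptUpper : PtUpper := by
  intro v hv p0 Y J a ha0 ha1 t z
  rw [Finset.range_eq_Ico, sum_eq_prod]
  rcases ha0.eq_or_lt with h0 | h0
  · subst h0
    have h1 : GG 0 v p0 Y J t = 1 := by
      unfold GG
      refine Finset.prod_eq_one fun g _ => ?_
      simp
    rw [h1]
    simp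
  · set G := GG a v p0 Y J t with hG
    have hG0 : 0 < G := GG_pos a v p0 Y J t
    set y : ℝ := G ^ (-((1 - a) / a)) with hy
    have hy0 : 0 ≤ y := Real.rpow_nonneg hG0.le _
    have hyoung := Real.geom_mean_le_arith_mean2_weighted (w₁ := 1 - a) (w₂ := a)
      (p₁ := ‖z‖ ^ 4 * G) (p₂ := y) (by linarith) h0.le (by positivity) hy0 (by ring)
    have hl : (‖z‖ ^ 4 * G) ^ (1 - a) * y ^ a = ‖z‖ ^ (4 * (1 - a)) := by
      rw [Real.mul_rpow (by positivity) hG0.le, hy, ← Real.rpow_mul hG0.le]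
      have e1 : -((1 - a) / a) * a = -(1 - a) := by field_simp
      rw [e1, mul_assoc, ← Real.rpow_add hG0]
      have e2 : (1 - a) + -(1 - a) = 0 := by ring
      rw [e2, Real.rpow_zero, mul_one, ← Real.rpow_natCast, ← Real.rpow_mul (norm_nonneg z)]
      norm_num
    rw [hl] at hyoung
    refine hyoung.trans ?_
    have hyle : y ≤ Real.exp (Real.exp (-(v : ℝ)))
        * ∏ g ∈ Finset.Ico 0 J, (bt v g (ev t (Pg v p0 Y g))
          + ‖EE (Kg v g) ((2 * (1 - a) : ℝ) * ev t (Pg v p0 Y g))‖ ^ 2) := by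
      have h1 : y = ∏ g ∈ Finset.Ico 0 J, (if ‖ev t (Pg v p0 Y g)‖ ≤ Rg v g then
          Real.exp (4 * (1 - a) * (ev t (Pg v p0 Y g)).re) else 1) := by
        rw [hy, hG]
        unfold GG
        rw [Finset.range_eq_Ico, ← Real.finsetProd_rpow]
        · refine Finset.prod_congr rfl fun g _ => ?_
          split_ifs
          · rw [← Real.exp_mul]
            congr 1
            field_simp
          · rw [Real.one_rpow]
        · intro g _
          split_ifs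
          · exact (Real.exp_pos _).le
          · exact zero_le_one
      rw [h1]
      refine prod_group_le hv _ ?_ (fun g => ev t (Pg v p0 Y g)) (by ring)
      rw [abs_of_nonneg (by linarith)]
      linarith
    gcongr

/-- the pointwise cap -/
theorem ptCap : PtCap := by
  intro v hv p0 Y i J hiJ a ha0 ha1 t
  rw [sum_eq_prod]
  unfold GG
  rw [← Finset.prod_range_mul_prod_Ico _ hiJ]
  have h1 : ∏ g ∈ Finset.range i, (if ‖ev t (Pg v p0 Y g)‖ ≤ Rg v g then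
      Real.exp (-4 * a * (ev t (Pg v p0 Y g)).re) else 1)
      ≤ Real.exp (4 * a * ∑ g ∈ Finset.range i, Rg v g) := by
    rw [Finset.mul_sum, Real.exp_sum]
    refine Finset.prod_le_prod (fun g _ => ?_) fun g _ => ?_
    · split_ifs
      · exact (Real.exp_pos _).le
      · exact zero_le_one
    · have hR := Rg_pos hv g
      split_ifs with h
      · apply Real.exp_le_exp.mpr
        have h2 := Complex.abs_re_le_norm (ev t (Pg v p0 Y g))
        have h3 := neg_abs_le (ev t (Pg v p0 Y g)).re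
        have h4 : -(ev t (Pg v p0 Y g)).re ≤ Rg v g := by linarith
        calc -4 * a * (ev t (Pg v p0 Y g)).re = 4 * a * (-(ev t (Pg v p0 Y g)).re) := by ring
          _ ≤ 4 * a * Rg v g := by gcongr
      · apply Real.one_le_exp
        positivity
  have h2 := prod_group_le hv (Finset.Ico i J) (c := -2 * a) (d := -4 * a) (by
    rw [abs_le]; constructor <;> linarith) (fun g => ev t (Pg v p0 Y g)) (by ring)
  refine mul_le_mul h1 h2 ?_ (Real.exp_pos _).le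
  refine Finset.prod_nonneg fun g _ => ?_
  split_ifs
  · exact (Real.exp_pos _).le
  · exact zero_le_one

namespace PtI

/-- one group, lower half -/
lemma group_lower {v : ℕ} (hv : 1 ≤ v) (g : ℕ) {a b : ℝ} (ha0 : 0 ≤ a) (ha1 : a ≤ 1 / 2)
    (hb : b = a / (1 + 2 * a)) (P : ℂ) :
    (‖EE (Kg v g) ((2 * a : ℝ) * P)‖ ^ 2) ^ (2 * (1 - b))
      ≤ Real.exp (dl v g) * ((bt v g P + ‖EE (Kg v g) ((2 * a : ℝ) * P)‖ ^ 2) ^ (1 - b)
        * (bt v g P + ‖EE (Kg v g) ((2 * (1 + a) : ℝ) * P)‖ ^ 2) ^ b) := by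
  have hb0 : 0 ≤ b := by rw [hb]; positivity
  have hb1 : b ≤ 1 / 2 := by rw [hb, div_le_iff₀ (by linarith)]; linarith
  have hbt := bt_nonneg hv g P
  have hR := Rg_pos hv g
  set A : ℝ := ‖EE (Kg v g) ((2 * a : ℝ) * P)‖ ^ 2 with hA
  set B : ℝ := ‖EE (Kg v g) ((2 * (1 + a) : ℝ) * P)‖ ^ 2 with hB
  have hA0 : 0 ≤ A := sq_nonneg _
  have hB0 : 0 ≤ B := sq_nonneg _
  have hd1 : 1 ≤ Real.exp (dl v g) := Real.one_le_exp (dl_nonneg v g)
  rcases le_or_gt ‖P‖ (Rg v g) with hP | hP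
  · set e : ℝ := (1 / 3) ^ (Kg v g + 1) with he
    have he0 : 0 ≤ e := by positivity
    have h1 : A ≤ Real.exp (4 * e) * Real.exp (2 * (2 * a) * P.re) :=
      EE_le_exp g (by rw [abs_of_nonneg (by linarith)]; linarith) hP
    have h2 : Real.exp (2 * (2 * (1 + a)) * P.re) ≤ Real.exp (8 * e) * B :=
      exp_le_EE hv g (by rw [abs_of_nonneg (by linarith)]; linarith) hP
    have h3 : A ^ (1 - b) ≤ Real.exp (8 * e) * B ^ b := by
      calc A ^ (1 - b) ≤ (Real.exp (4 * e) * Real.exp (2 * (2 * a) * P.re)) ^ (1 - b) :=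
            Real.rpow_le_rpow hA0 h1 (by linarith)
        _ = Real.exp (4 * e * (1 - b)) * (Real.exp (2 * (2 * (1 + a)) * P.re)) ^ b := by
            rw [Real.mul_rpow (Real.exp_pos _).le (Real.exp_pos _).le, ← Real.exp_mul,
              ← Real.exp_mul, ← Real.exp_mul]
            congr 2
            rw [hb]
            field_simp
            ring
        _ ≤ Real.exp (4 * e * (1 - b)) * (Real.exp (8 * e) * B) ^ b := by
            gcongr
        _ = Real.exp (4 * e * (1 - b) + 8 * e * b) * B ^ b := by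
            rw [Real.mul_rpow (Real.exp_pos _).le hB0, ← Real.exp_mul, ← mul_assoc,
              ← Real.exp_add]
        _ ≤ Real.exp (8 * e) * B ^ b := by
            gcongr
            nlinarith
    have h4 : Real.exp (8 * e) ≤ Real.exp (dl v g) := Real.exp_le_exp.mpr (err_le hv g)
    have e1 : 2 * (1 - b) = (1 - b) + (1 - b) := by ring
    rw [e1, Real.rpow_add' hA0 (by linarith)]
    calc A ^ (1 - b) * A ^ (1 - b) ≤ A ^ (1 - b) * (Real.exp (8 * e) * B ^ b) := by gcongr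
      _ = Real.exp (8 * e) * (A ^ (1 - b) * B ^ b) := by ring
      _ ≤ Real.exp (dl v g) * ((bt v g P + A) ^ (1 - b) * (bt v g P + B) ^ b) := by
          gcongr
          · linarith
          · linarith
          · linarith
  · have hz1 : 1 ≤ ‖P‖ / Rg v g := by rw [le_div_iff₀ hR]; linarith
    have h1 := norm_EE_le_large (l := Kg v g) (a := 2 * a) (by linarith) hR (z := P) hP.le
    have h2 : ‖EE (Kg v g) ((2 * a : ℝ) * P)‖
        ≤ Real.exp (Rg v g) * (‖P‖ / Rg v g) ^ (Kg v g) := by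
      refine h1.trans ?_
      gcongr
      nlinarith
    have h3 : 1 ≤ Real.exp (Rg v g) * (‖P‖ / Rg v g) ^ (Kg v g) := by
      have i1 : 1 ≤ Real.exp (Rg v g) := Real.one_le_exp hR.le
      have i2 : 1 ≤ (‖P‖ / Rg v g) ^ (Kg v g) := one_le_pow₀ hz1
      nlinarith
    have h4 : A ^ (2 * (1 - b)) ≤ bt v g P := by
      calc A ^ (2 * (1 - b))
          ≤ ((Real.exp (Rg v g) * (‖P‖ / Rg v g) ^ (Kg v g)) ^ 2) ^ (2 * (1 - b)) := by
            refine Real.rpow_le_rpow hA0 ?_ (by linarith)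
            rw [hA]
            gcongr
        _ ≤ ((Real.exp (Rg v g) * (‖P‖ / Rg v g) ^ (Kg v g)) ^ 2) ^ (2 : ℝ) := by
            refine Real.rpow_le_rpow_of_exponent_le (one_le_pow₀ h3) (by linarith)
        _ = Real.exp (4 * Rg v g) * (‖P‖ / Rg v g) ^ (2 * Mg v g) := by
            rw [Real.rpow_two, ← pow_mul, mul_pow, ← pow_mul, ← Real.exp_nat_mul]
            have e1 : Kg v g * (2 * 2) = 2 * Mg v g := by unfold Kg Mg; ring
            rw [e1]
            push_cast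
            norm_num
        _ ≤ bt v g P := by
            rw [bt_eq]
            gcongr
            norm_num
    have hb1' : bt v g P = bt v g P ^ (1 - b) * bt v g P ^ b := by
      rw [← Real.rpow_add' hbt (by linarith)]
      rw [sub_add_cancel, Real.rpow_one]
    calc A ^ (2 * (1 - b)) ≤ bt v g P := h4
      _ = 1 * (bt v g P ^ (1 - b) * bt v g P ^ b) := by rw [one_mul, ← hb1']
      _ ≤ _ := by
          gcongr
          · linarith
          · linarith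
          · linarith

end PtI

/-- the pointwise inequality of the lower half -/
theorem ptLower : PtLower := by
  intro v hv p0 Y J a b ha0 ha1 hb t z
  have hb0 : 0 ≤ b := by rw [hb]; positivity
  have hb1 : b ≤ 1 / 2 := by rw [hb, div_le_iff₀ (by linarith)]; linarith
  rw [Finset.range_eq_Ico, sum_eq_prod, sum_eq_prod]
  set P : ℕ → ℂ := fun g => ev t (Pg v p0 Y g) with hP
  set X : ℝ := ∏ g ∈ Finset.Ico 0 J, (bt v g (P g) + ‖EE (Kg v g) ((2 * a : ℝ) * P g)‖ ^ 2)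
    with hX
  set Z : ℝ := ∏ g ∈ Finset.Ico 0 J, (bt v g (P g) + ‖EE (Kg v g) ((2 * (1 + a) : ℝ) * P g)‖ ^ 2)
    with hZ
  have hX0 : 0 ≤ X := prod_bound_nonneg hv _ _ P
  have hZ0 : 0 ≤ Z := prod_bound_nonneg hv _ _ P
  have hA : ‖ev t (Bt (2 * a) v p0 Y 0 J ∅)‖ ^ 2
      = ∏ g ∈ Finset.Ico 0 J, ‖EE (Kg v g) ((2 * a : ℝ) * P g)‖ ^ 2 := by
    unfold Bt
    rw [Finset.sdiff_empty, Finset.prod_empty, mul_one, map_prod, norm_prod, ← Finset.prod_pow]
    refine Finset.prod_congr rfl fun g _ => ?_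
    unfold Eg
    rw [ev_expo]
    rfl
  have h1 : (‖ev t (Bt (2 * a) v p0 Y 0 J ∅)‖ ^ 2) ^ (2 * (1 - b))
      ≤ Real.exp (Real.exp (-(v : ℝ))) * (X ^ (1 - b) * Z ^ b) := by
    rw [hA, ← Real.finsetProd_rpow _ _ (fun g _ => sq_nonneg _)]
    calc ∏ g ∈ Finset.Ico 0 J, (‖EE (Kg v g) ((2 * a : ℝ) * P g)‖ ^ 2) ^ (2 * (1 - b))
        ≤ ∏ g ∈ Finset.Ico 0 J, (Real.exp (dl v g)
          * ((bt v g (P g) + ‖EE (Kg v g) ((2 * a : ℝ) * P g)‖ ^ 2) ^ (1 - b)
            * (bt v g (P g) + ‖EE (Kg v g) ((2 * (1 + a) : ℝ) * P g)‖ ^ 2) ^ b)) :=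
          Finset.prod_le_prod (fun g _ => Real.rpow_nonneg (sq_nonneg _) _)
            fun g _ => group_lower hv g ha0 ha1 hb (P g)
      _ = Real.exp (∑ g ∈ Finset.Ico 0 J, dl v g) * (X ^ (1 - b) * Z ^ b) := by
          rw [Finset.prod_mul_distrib, Finset.prod_mul_distrib, Real.exp_sum, hX, hZ,
            Real.finsetProd_rpow, Real.finsetProd_rpow]
          · intro g _
            exact add_nonneg (bt_nonneg hv g _) (sq_nonneg _)
          · intro g _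
            exact add_nonneg (bt_nonneg hv g _) (sq_nonneg _)
      _ ≤ _ := by
          gcongr
          exact sum_dl_le hv _
  have hyoung := Real.geom_mean_le_arith_mean2_weighted (w₁ := 1 - b) (w₂ := b)
    (p₁ := ‖z‖ ^ 2 * X) (p₂ := Z) (by linarith) hb0 (by positivity) hZ0 (by ring)
  have hzz : ‖z‖ ^ (2 * (1 - b)) = (‖z‖ ^ 2) ^ (1 - b) := by
    rw [← Real.rpow_natCast, ← Real.rpow_mul (norm_nonneg z)]
    norm_num
  calc (‖z‖ * ‖ev t (Bt (2 * a) v p0 Y 0 J ∅)‖ ^ 2) ^ (2 * (1 - b))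
      = ‖z‖ ^ (2 * (1 - b)) * (‖ev t (Bt (2 * a) v p0 Y 0 J ∅)‖ ^ 2) ^ (2 * (1 - b)) :=
        Real.mul_rpow (norm_nonneg z) (sq_nonneg _)
    _ ≤ ‖z‖ ^ (2 * (1 - b)) * (Real.exp (Real.exp (-(v : ℝ))) * (X ^ (1 - b) * Z ^ b)) := by
        gcongr
    _ = Real.exp (Real.exp (-(v : ℝ))) * ((‖z‖ ^ 2 * X) ^ (1 - b) * Z ^ b) := by
        rw [hzz, Real.mul_rpow (sq_nonneg _) hX0]
        ring
    _ ≤ Real.exp (Real.exp (-(v : ℝ))) * ((1 - b) * (‖z‖ ^ 2 * X) + b * Z) := by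
        gcongr

end Pool.Agent.Lib.J4
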