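import Pool.Agent.Lib.MP_f9aece_nt_j4.Defs

/-!
# JointFour, module P: the smooth cut-off and its derivative
-/

set_option autoImplicit false

namespace Pool.Agent.Lib.J4.H17

open MeasureTheory Set Filter Topology

/-- the derivative of the transition function -/
noncomputable def S1 (x : ℝ) : ℝ := deriv Real.smoothTransition x

lemma contDiff_S1 : ContDiff ℝ 1 S1 := by
  have h : ContDiff ℝ 2 Real.smoothTransition := Real.smoothTransition.contDiff
  have h2 : ContDiff ℝ (1 + 1) Real.smoothTransition := by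
    have e : (1 + 1 : WithTop ℕ∞) = 2 := by norm_num
    rw [e]; exact h
  exact (contDiff_succ_iff_deriv.mp h2).2.2

lemma hasDerivAt_st (x : ℝ) : HasDerivAt Real.smoothTransition (S1 x) x := by
  have h : ContDiff ℝ 1 Real.smoothTransition := Real.smoothTransition.contDiff
  exact (h.differentiable one_ne_zero x).hasDerivAt

lemma S1_zero_of_nonpos {x : ℝ} (hx : x < 0) : S1 x = 0 := by
  unfold S1
  have h : Real.smoothTransition =ᶠ[𝓝 x] fun _ => 0 := by
    filter_upwards [Iio_mem_nhds hx] with y hy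
    exact Real.smoothTransition.zero_of_nonpos (le_of_lt hy)
  rw [h.deriv_eq, deriv_const]

lemma S1_zero_of_one_lt {x : ℝ} (hx : 1 < x) : S1 x = 0 := by
  unfold S1
  have h : Real.smoothTransition =ᶠ[𝓝 x] fun _ => 1 := by
    filter_upwards [Ioi_mem_nhds hx] with y hy
    exact Real.smoothTransition.one_of_one_le (le_of_lt hy)
  rw [h.deriv_eq, deriv_const]

lemma S1_zero_le {x : ℝ} (hx : x ≤ 0) : S1 x = 0 := by
  rcases hx.eq_or_lt with h | h
  · subst h
    have h1 : Tendsto S1 (𝓝[<] 0) (𝓝 (S1 0)) :=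
      contDiff_S1.continuous.continuousAt.mono_left nhdsWithin_le_nhds
    have h2 : Tendsto S1 (𝓝[<] 0) (𝓝 0) := by
      refine Tendsto.congr' ?_ tendsto_const_nhds
      filter_upwards [self_mem_nhdsWithin] with y hy
      exact (S1_zero_of_nonpos hy).symm
    exact tendsto_nhds_unique h1 h2
  · exact S1_zero_of_nonpos h

lemma S1_zero_ge {x : ℝ} (hx : 1 ≤ x) : S1 x = 0 := by
  rcases hx.eq_or_lt with h | h
  · subst h
    have h1 : Tendsto S1 (𝓝[>] 1) (𝓝 (S1 1)) :=
      contDiff_S1.continuous.continuousAt.mono_left nhdsWithin_le_nhds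
    have h2 : Tendsto S1 (𝓝[>] 1) (𝓝 0) := by
      refine Tendsto.congr' ?_ tendsto_const_nhds
      filter_upwards [self_mem_nhdsWithin] with y hy
      exact (S1_zero_of_one_lt hy).symm
    exact tendsto_nhds_unique h1 h2
  · exact S1_zero_of_one_lt h

/-- a constant for the transition function -/
lemma exists_K : ∃ K : ℝ, 1 ≤ K ∧ (∀ x, |S1 x| ≤ K) ∧ (∀ x y, |S1 x - S1 y| ≤ K * |x - y|) ∧
    (∀ x y, |Real.smoothTransition x - Real.smoothTransition y| ≤ K * |x - y|) := by
  have hc : HasCompactSupport S1 := by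
    refine HasCompactSupport.intro (isCompact_Icc (a := (0 : ℝ)) (b := 1)) fun x hx => ?_
    rw [mem_Icc, not_and_or, not_le, not_le] at hx
    rcases hx with h | h
    · exact S1_zero_le h.le
    · exact S1_zero_ge h.le
  obtain ⟨B, hB⟩ := hc.exists_bound_of_continuous contDiff_S1.continuous
  obtain ⟨D, hD⟩ := contDiff_S1.lipschitzWith_of_hasCompactSupport hc one_ne_zero
  have hK1 : ∀ x, |S1 x| ≤ max 1 (max B D) := fun x =>
    (hB x).trans ((le_max_left _ _).trans (le_max_right _ _))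
  refine ⟨max 1 (max B D), le_max_left _ _, hK1, ?_, ?_⟩
  · intro x y
    have h := hD.dist_le_mul x y
    rw [Real.dist_eq, Real.dist_eq] at h
    refine h.trans (mul_le_mul_of_nonneg_right ?_ (abs_nonneg _))
    exact (le_max_right _ _).trans (le_max_right _ _)
  · intro x y
    have h := Convex.norm_image_sub_le_of_norm_hasDerivWithin_le (f := Real.smoothTransition)
      (f' := S1) (s := univ) (x := y) (y := x) (C := max 1 (max B D))
      (fun z _ => (hasDerivAt_st z).hasDerivWithinAt) (fun z _ => hK1 z) convex_univ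
      (mem_univ _) (mem_univ _)
    rwa [Real.norm_eq_abs, Real.norm_eq_abs] at h

/-! ### the cut-off -/

lemma cu_nonneg (c w x : ℝ) : 0 ≤ cu c w x := Real.smoothTransition.nonneg _

lemma cu_le_one (c w x : ℝ) : cu c w x ≤ 1 := Real.smoothTransition.le_one _

lemma cu_eq_one {c w x : ℝ} (hw : 0 < w) (hx : x ≤ c - w) : cu c w x = 1 := by
  unfold cu
  refine Real.smoothTransition.one_of_one_le ?_
  rw [le_div_iff₀ hw]; linarith

lemma cu_eq_zero {c w x : ℝ} (hw : 0 < w) (hx : c ≤ x) : cu c w x = 0 := by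
  unfold cu
  refine Real.smoothTransition.zero_of_nonpos ?_
  rw [div_nonpos_iff]
  right
  exact ⟨by linarith, hw.le⟩

lemma continuous_cu (c w : ℝ) : Continuous (cu c w) := by
  unfold cu
  exact Real.smoothTransition.continuous.comp ((continuous_const.sub continuous_id).div_const w)

/-- the derivative of the cut-off -/
noncomputable def cu1 (c w x : ℝ) : ℝ := -(1 / w) * S1 ((c - x) / w)

lemma hasDerivAt_cu (c w x : ℝ) : HasDerivAt (cu c w) (cu1 c w x) x := by
  unfold cu1
  have h1 : HasDerivAt (fun x : ℝ => (c - x) / w) (-1 / w) x :=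
    ((hasDerivAt_id x).const_sub c).div_const w
  have h2 := (hasDerivAt_st ((c - x) / w)).comp x h1
  have e : S1 ((c - x) / w) * (-1 / w) = -(1 / w) * S1 ((c - x) / w) := by ring
  rw [e] at h2
  exact h2

lemma continuous_cu1 (c w : ℝ) : Continuous (cu1 c w) := by
  unfold cu1
  exact continuous_const.mul
    (contDiff_S1.continuous.comp ((continuous_const.sub continuous_id).div_const w))

lemma cu1_eq_zero_left {c w x : ℝ} (hw : 0 < w) (hx : x ≤ c - w) : cu1 c w x = 0 := by
  unfold cu1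
  rw [S1_zero_ge, mul_zero]
  rw [le_div_iff₀ hw]; linarith

lemma cu1_eq_zero_right {c w x : ℝ} (hw : 0 < w) (hx : c ≤ x) : cu1 c w x = 0 := by
  unfold cu1
  rw [S1_zero_le, mul_zero]
  rw [div_nonpos_iff]
  right
  exact ⟨by linarith, hw.le⟩

/-- bounds for the cut-off -/
structure KC (K : ℝ) : Prop where
  one_le : 1 ≤ K
  b1 : ∀ x, |S1 x| ≤ K
  l1 : ∀ x y, |S1 x - S1 y| ≤ K * |x - y|
  l0 : ∀ x y, |Real.smoothTransition x - Real.smoothTransition y| ≤ K * |x - y|

lemma exists_KC : ∃ K : ℝ, KC K := by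
  obtain ⟨K, h1, h2, h3, h4⟩ := exists_K
  exact ⟨K, h1, h2, h3, h4⟩

variable {K : ℝ}

lemma arg_sub (c x y : ℝ) {w : ℝ} (hw : 0 < w) : |(c - x) / w - (c - y) / w| = |x - y| / w := by
  rw [← sub_div, abs_div, abs_of_pos hw]
  congr 1
  rw [show c - x - (c - y) = -(x - y) by ring, abs_neg]

lemma cu_lip (hK : KC K) (c : ℝ) {w : ℝ} (hw : 0 < w) (x y : ℝ) :
    |cu c w x - cu c w y| ≤ K / w * |x - y| := by
  unfold cu
  refine (hK.l0 _ _).trans (le_of_eq ?_)
  rw [arg_sub c x y hw]
  ring

lemma cu1_bound (hK : KC K) (c : ℝ) {w : ℝ} (hw : 0 < w) (x : ℝ) : |cu1 c w x| ≤ K / w := by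
  unfold cu1
  rw [abs_mul, abs_neg, abs_of_pos (by positivity)]
  calc 1 / w * |S1 ((c - x) / w)| ≤ 1 / w * K := by
        gcongr
        exact hK.b1 _
    _ = K / w := by ring

lemma cu1_lip (hK : KC K) (c : ℝ) {w : ℝ} (hw : 0 < w) (x y : ℝ) :
    |cu1 c w x - cu1 c w y| ≤ K / w / w * |x - y| := by
  unfold cu1
  rw [← mul_sub, abs_mul, abs_neg, abs_of_pos (show 0 < 1 / w by positivity)]
  calc 1 / w * |S1 ((c - x) / w) - S1 ((c - y) / w)|
      ≤ 1 / w * (K * |(c - x) / w - (c - y) / w|) := by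
        gcongr
        exact hK.l1 _ _
    _ = K / w / w * |x - y| := by
        rw [arg_sub c x y hw]
        ring

end Pool.Agent.Lib.J4.H17
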