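import Pool.Agent.Lib.MP_f9aece_nt_j4.GroupsH
import Pool.Agent.Lib.MP_f9aece_nt_h17.Cut

/-!
# JointFour, module P: the symbols of the windows
-/

set_option autoImplicit false

namespace Pool.Agent.Lib.J4.H17

open MeasureTheory Set Filter Topology

/-- a bounded Lipschitz symbol -/
structure Sym (h : ℝ → ℝ) (A0 lm X1 X2 : ℝ) : Prop where
  cont : Continuous h
  bound : ∀ x, |h x| ≤ A0
  lip : ∀ x y, |h x - h y| ≤ A0 / lm * |x - y|
  right : ∀ x, X2 ≤ x → h x = 0
  left : ∀ x, x ≤ X1 → h x = 0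

lemma Sym.shift {h : ℝ → ℝ} {A0 lm X1 X2 A u : ℝ} (hh : Sym h A0 lm X1 X2) (hu0 : 0 ≤ u)
    (huA : u ≤ A) : Sym (fun x => h (x + u)) A0 lm (X1 - A) X2 where
  cont := hh.cont.comp (continuous_id.add continuous_const)
  bound := fun x => hh.bound _
  lip := fun x y => by
    have := hh.lip (x + u) (y + u)
    rwa [add_sub_add_right_eq_sub] at this
  right := fun x hx => hh.right _ (by linarith)
  left := fun x hx => hh.left _ (by linarith)

lemma sym_cu1 {K : ℝ} (hK : KC K) (c : ℝ) {w : ℝ} (hw : 0 < w) :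
    Sym (cu1 c w) (K / w) w (c - w) c where
  cont := continuous_cu1 c w
  bound := cu1_bound hK c hw
  lip := cu1_lip hK c hw
  right := fun _ hx => cu1_eq_zero_right hw hx
  left := fun _ hx => cu1_eq_zero_left hw hx

/-- difference of two cut-offs -/
lemma sym_cu_sub {K : ℝ} (hK : KC K) {L μ lam : ℝ} (hμ : 0 < μ) (hl : μ ≤ lam) :
    Sym (fun x => cu (L - μ) μ x - cu (L - lam) lam x) (2 * K) μ (L - 2 * lam) (L - μ) where
  cont := (continuous_cu _ _).sub (continuous_cu _ _)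
  bound := fun x => by
    have h1 := cu_nonneg (L - μ) μ x
    have h2 := cu_le_one (L - μ) μ x
    have h3 := cu_nonneg (L - lam) lam x
    have h4 := cu_le_one (L - lam) lam x
    have h5 := hK.one_le
    rw [abs_le]
    constructor <;> linarith
  lip := fun x y => by
    have hl0 : 0 < lam := lt_of_lt_of_le hμ hl
    have h1 := cu_lip hK (L - μ) hμ x y
    have h2 := cu_lip hK (L - lam) hl0 x y
    have h3 : K / lam ≤ K / μ :=
      div_le_div_of_nonneg_left (zero_le_one.trans hK.one_le) hμ hl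
    have h4 := abs_sub (cu (L - μ) μ x - cu (L - μ) μ y) (cu (L - lam) lam x - cu (L - lam) lam y)
    have e : cu (L - μ) μ x - cu (L - lam) lam x - (cu (L - μ) μ y - cu (L - lam) lam y)
        = cu (L - μ) μ x - cu (L - μ) μ y - (cu (L - lam) lam x - cu (L - lam) lam y) := by ring
    rw [e]
    have h5 : K / lam * |x - y| ≤ K / μ * |x - y| := mul_le_mul_of_nonneg_right h3 (abs_nonneg _)
    have e2 : 2 * K / μ * |x - y| = K / μ * |x - y| + K / μ * |x - y| := by ring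
    rw [e2]
    linarith
  right := fun x hx => by
    have hl0 : 0 < lam := lt_of_lt_of_le hμ hl
    rw [cu_eq_zero hμ hx, cu_eq_zero hl0 (by linarith), sub_zero]
  left := fun x hx => by
    have hl0 : 0 < lam := lt_of_lt_of_le hμ hl
    rw [cu_eq_one hμ (by linarith), cu_eq_one hl0 (by linarith), sub_self]

lemma sym_cu1_sub {K : ℝ} (hK : KC K) {L μ lam : ℝ} (hμ : 0 < μ) (hl : μ ≤ lam) :
    Sym (fun x => cu1 (L - μ) μ x - cu1 (L - lam) lam x) (2 * K / μ) μ (L - 2 * lam) (L - μ) where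
  cont := (continuous_cu1 _ _).sub (continuous_cu1 _ _)
  bound := fun x => by
    have hl0 : 0 < lam := lt_of_lt_of_le hμ hl
    have h1 := cu1_bound hK (L - μ) hμ x
    have h2 := cu1_bound hK (L - lam) hl0 x
    have h3 : K / lam ≤ K / μ :=
      div_le_div_of_nonneg_left (zero_le_one.trans hK.one_le) hμ hl
    have h4 := abs_sub (cu1 (L - μ) μ x) (cu1 (L - lam) lam x)
    have e : 2 * K / μ = K / μ + K / μ := by ring
    rw [e]
    linarith
  lip := fun x y => by
    have hl0 : 0 < lam := lt_of_lt_of_le hμ hl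
    have h1 := cu1_lip hK (L - μ) hμ x y
    have h2 := cu1_lip hK (L - lam) hl0 x y
    have h0 : 0 ≤ K := zero_le_one.trans hK.one_le
    have h3 : K / lam / lam ≤ K / μ / μ := by
      have : K / lam ≤ K / μ := div_le_div_of_nonneg_left h0 hμ hl
      calc K / lam / lam ≤ K / μ / lam := by gcongr
        _ ≤ K / μ / μ := div_le_div_of_nonneg_left (by positivity) hμ hl
    have h4 := abs_sub (cu1 (L - μ) μ x - cu1 (L - μ) μ y)
      (cu1 (L - lam) lam x - cu1 (L - lam) lam y)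
    have e : cu1 (L - μ) μ x - cu1 (L - lam) lam x - (cu1 (L - μ) μ y - cu1 (L - lam) lam y)
        = cu1 (L - μ) μ x - cu1 (L - μ) μ y - (cu1 (L - lam) lam x - cu1 (L - lam) lam y) := by
      ring
    rw [e]
    have h5 : K / lam / lam * |x - y| ≤ K / μ / μ * |x - y| :=
      mul_le_mul_of_nonneg_right h3 (abs_nonneg _)
    have e2 : 2 * K / μ / μ * |x - y| = K / μ / μ * |x - y| + K / μ / μ * |x - y| := by ring
    rw [e2]
    linarith
  right := fun x hx => by
    have hl0 : 0 < lam := lt_of_lt_of_le hμ hl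
    rw [cu1_eq_zero_right hμ hx, cu1_eq_zero_right hl0 (by linarith), sub_zero]
  left := fun x hx => by
    have hl0 : 0 < lam := lt_of_lt_of_le hμ hl
    rw [cu1_eq_zero_left hμ (by linarith), cu1_eq_zero_left hl0 (by linarith), sub_self]

/-! ### the distances -/

section
variable {v p0 : ℕ} {Y L σ : ℝ} {J : ℕ}

lemma lam_zero : lam v Y L σ J 0 = σ * L := by simp [lam]

lemma lam_succ_of_lt {i : ℕ} (h : i < J) :
    lam v Y L σ J (i + 1) = 200000 * v * ((i : ℝ) + 1) * Yg v Y i := by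
  unfold lam
  rw [if_neg (Nat.succ_ne_zero i), if_pos (Nat.succ_le_of_lt h), Nat.add_sub_cancel]
  push_cast
  ring

lemma lam_last : lam v Y L σ J (J + 1) = 1 := by
  unfold lam
  rw [if_neg (Nat.succ_ne_zero J), if_neg (by omega)]

lemma one_le_log {p0 : ℕ} (hp : 3 ≤ p0) : 1 ≤ Real.log p0 := by
  have h3 : (3 : ℝ) ≤ p0 := by exact_mod_cast hp
  rw [Real.le_log_iff_exp_le (by linarith)]
  linarith [Real.exp_one_lt_d9]

/-- standing assumptions on the parameters -/
structure Par (v p0 : ℕ) (Y L σ : ℝ) (J : ℕ) : Prop where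
  hv : 2 ≤ v
  hp : 3 ≤ p0
  hY : 1 ≤ Y
  hYL : Y ≤ L
  hσ : 0 < σ
  hσ4 : σ ≤ 1 / 4
  hσL : 200000 * v * Y ≤ σ * L
  hJ : Jok v p0 Y J

namespace Par

variable (h : Par v p0 Y L σ J)
include h

lemma L_pos : 1 ≤ L := h.hY.trans h.hYL

lemma v_ge : (2 : ℝ) ≤ v := by exact_mod_cast h.hv

lemma Y_le_σL : Y ≤ σ * L := by
  have h1 := h.v_ge
  have h2 := h.hY
  have h3 : Y ≤ 200000 * v * Y := by nlinarith
  exact h3.trans h.hσL

lemma Yg_gt {g : ℕ} (hg : g < J) : 1 ≤ Yg v Y g :=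
  (one_le_log h.hp).trans (h.hJ.2 g hg).le

lemma one_le_lam {i : ℕ} (hi : i ≤ J + 1) : 1 ≤ lam v Y L σ J i := by
  rcases Nat.eq_zero_or_pos i with rfl | hi0
  · rw [lam_zero]
    exact h.hY.trans h.Y_le_σL
  · obtain ⟨k, rfl⟩ : ∃ k, i = k + 1 := ⟨i - 1, by omega⟩
    rcases Nat.lt_or_ge k J with hk | hk
    · rw [lam_succ_of_lt hk]
      have h1 := h.Yg_gt hk
      have h2 := h.v_ge
      have h3 : (0 : ℝ) ≤ k := Nat.cast_nonneg k
      have h4 : (1 : ℝ) ≤ 200000 * v * ((k : ℝ) + 1) := by nlinarith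
      nlinarith
    · have : k = J := by omega
      subst this
      rw [lam_last]

lemma Yg_step (g : ℕ) : Yg v Y (g + 1) ≤ 1 / 2 * Yg v Y g := by
  rw [Yg_succ]
  have h0 : 0 < Yg v Y g := Yg_pos v (by linarith [h.hY]) g
  have h1 : Real.exp (-(rg v g : ℝ)) ≤ 1 / 2 := by
    have h2 : Real.exp (-(rg v g : ℝ)) ≤ Real.exp (-1) := by
      apply Real.exp_le_exp.mpr
      have : (1 : ℝ) ≤ rg v g := by
        have h3 : 1 ≤ rg v g := by
          unfold rg
          exact Nat.mul_pos (by have := h.hv; omega) (Nat.succ_pos g)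
        exact_mod_cast h3
      linarith
    have h3 : Real.exp (-1) ≤ 1 / 2 := by
      rw [Real.exp_neg, ← one_div]
      apply one_div_le_one_div_of_le (by norm_num)
      have := Real.add_one_le_exp (1 : ℝ)
      linarith
    linarith
  nlinarith

lemma lam_anti {i : ℕ} (hi : i ≤ J) : lam v Y L σ J (i + 1) ≤ lam v Y L σ J i := by
  rcases Nat.lt_or_ge i J with hk | hk
  · rw [lam_succ_of_lt hk]
    rcases Nat.eq_zero_or_pos i with rfl | hi0
    · rw [lam_zero, Yg_zero]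
      have := h.hσL
      push_cast
      linarith
    · obtain ⟨k, rfl⟩ : ∃ k, i = k + 1 := ⟨i - 1, by omega⟩
      rw [lam_succ_of_lt (by omega)]
      have h1 := h.Yg_step k
      have h0 : 0 < Yg v Y k := Yg_pos v (by linarith [h.hY]) k
      have h2 := h.v_ge
      have h3 : (0 : ℝ) ≤ k := Nat.cast_nonneg k
      push_cast
      have h4 : (0 : ℝ) ≤ 200000 * v := by linarith
      calc 200000 * (v : ℝ) * ((k : ℝ) + 1 + 1) * Yg v Y (k + 1)
          ≤ 200000 * (v : ℝ) * ((k : ℝ) + 1 + 1) * (1 / 2 * Yg v Y k) := by gcongr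
        _ = 200000 * (v : ℝ) * (((k : ℝ) + 1 + 1) / 2) * Yg v Y k := by ring
        _ ≤ 200000 * (v : ℝ) * ((k : ℝ) + 1) * Yg v Y k := by
            gcongr
            linarith
  · have : i = J := by omega
    subst this
    rw [lam_last]
    exact h.one_le_lam (Nat.le_succ _)

lemma Yg_le_lam {i : ℕ} (hi : i ≤ J) : Yg v Y i ≤ lam v Y L σ J i := by
  rcases Nat.eq_zero_or_pos i with rfl | hi0
  · rw [lam_zero, Yg_zero]
    exact h.Y_le_σL
  · obtain ⟨k, rfl⟩ : ∃ k, i = k + 1 := ⟨i - 1, by omega⟩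
    rw [lam_succ_of_lt (by omega)]
    have h1 := h.Yg_step k
    have h0 : 0 < Yg v Y k := Yg_pos v (by linarith [h.hY]) k
    have h2 := h.v_ge
    have h3 : (0 : ℝ) ≤ k := Nat.cast_nonneg k
    have h4 : (1 : ℝ) ≤ 200000 * v * ((k : ℝ) + 1) := by nlinarith
    nlinarith

lemma Yg_le_lam_succ {i : ℕ} (hi : i < J) : Yg v Y i ≤ lam v Y L σ J (i + 1) := by
  rw [lam_succ_of_lt hi]
  have h0 : 0 < Yg v Y i := Yg_pos v (by linarith [h.hY]) i
  have h2 := h.v_ge
  have h3 : (0 : ℝ) ≤ i := Nat.cast_nonneg i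
  have h4 : (1 : ℝ) ≤ 200000 * v * ((i : ℝ) + 1) := by nlinarith
  nlinarith

lemma lam_le_quarter {i : ℕ} (hi : i ≤ J + 1) : lam v Y L σ J i ≤ σ * L := by
  induction i with
  | zero => rw [lam_zero]
  | succ k ih => exact (h.lam_anti (by omega)).trans (ih (by omega))

end Par

end

/-- the derivative of the symbol of the window -/
noncomputable def win1 (v : ℕ) (Y L σ : ℝ) (J i : ℕ) (x : ℝ) : ℝ :=
  cu1 (L - lam v Y L σ J (i + 1)) (lam v Y L σ J (i + 1)) x
    - cu1 (L - lam v Y L σ J i) (lam v Y L σ J i) x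

lemma hasDerivAt_win (v : ℕ) (Y L σ : ℝ) (J i : ℕ) (x : ℝ) :
    HasDerivAt (win v Y L σ J i) (win1 v Y L σ J i x) x := by
  unfold win1
  exact (hasDerivAt_cu _ _ x).sub (hasDerivAt_cu _ _ x)

lemma sym_win {K : ℝ} (hK : KC K) {v p0 : ℕ} {Y L σ : ℝ} {J : ℕ} (h : Par v p0 Y L σ J) {i : ℕ}
    (hi : i ≤ J) : Sym (win v Y L σ J i) (2 * K) (lam v Y L σ J (i + 1))
      (L - 2 * lam v Y L σ J i) (L - lam v Y L σ J (i + 1)) :=
  sym_cu_sub hK (lt_of_lt_of_le one_pos (h.one_le_lam (by omega))) (h.lam_anti hi)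

lemma sym_win1 {K : ℝ} (hK : KC K) {v p0 : ℕ} {Y L σ : ℝ} {J : ℕ} (h : Par v p0 Y L σ J) {i : ℕ}
    (hi : i ≤ J) : Sym (win1 v Y L σ J i) (2 * K / lam v Y L σ J (i + 1)) (lam v Y L σ J (i + 1))
      (L - 2 * lam v Y L σ J i) (L - lam v Y L σ J (i + 1)) :=
  sym_cu1_sub hK (lt_of_lt_of_le one_pos (h.one_le_lam (by omega))) (h.lam_anti hi)

end Pool.Agent.Lib.J4.H17
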