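import Pool.Agent.Lib.MP_f9aece_nt_j4.KInt
import Pool.Agent.Lib.MP_f9aece_nt_j4.I2Base
import Pool.Agent.Lib.MP_f9aece_nt_h17.WinF

/-!
# JointFour, module P: mean squares
-/

set_option autoImplicit false

namespace Pool.Agent.Lib.J4.H17

open MeasureTheory Set Filter Topology Complex
open scoped ComplexConjugate
open Pool.Agent.Lib.MP_f9aece_nt (DP pair BK K1 ev ev1 evh PP VV Smo expo EE mom BK_K1_eq pair_def
  continuous_ev)
open Pool.Agent.Lib.MP_f9aece_nt_h97 (Sup)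
open Pool.Agent.Lib.J4.H24 (cap cap_nonneg Wt_nonneg continuous_cap Iw_cap)

lemma En_eq_sum (f : DP) : En f = ∑ a ∈ f.coeff.support, f.coeff a ^ 2 / (a : ℝ) := by
  unfold En
  rw [BK_K1_eq, pair_def]
  exact Finset.sum_congr rfl fun a _ => by ring

lemma En_nonneg (f : DP) : 0 ≤ En f := by
  rw [En_eq_sum]
  exact Finset.sum_nonneg fun a _ => by positivity

lemma integral_w_le {w : ℝ → ℝ} {θ C : ℝ} (hθ : 0 < θ) (hw : Wgt w θ C) : ∫ u, w u ≤ 2 := by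
  have h1 : ∫ u, w u ≤ ∫ u, (Icc (0 : ℝ) 2).indicator (fun _ => (1 : ℝ)) u := by
    refine integral_mono_of_nonneg (ae_of_all _ hw.nonneg) ?_ (ae_of_all _ fun u => ?_)
    · exact (integrableOn_const (by simp) (by simp)).integrable_indicator measurableSet_Icc
    · by_cases hu : u ∈ Icc (0 : ℝ) 2
      · rw [indicator_of_mem hu]; exact hw.le_one u
      · rw [indicator_of_notMem hu]
        by_contra h
        push Not at h
        have h2 := hw.supp u h.ne'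
        exact hu ⟨hθ.le.trans h2.1, h2.2⟩
  refine h1.trans ?_
  rw [integral_indicator measurableSet_Icc, setIntegral_const]
  simp

lemma integral_w_nonneg {w : ℝ → ℝ} {θ C : ℝ} (hw : Wgt w θ C) : 0 ≤ ∫ u, w u :=
  integral_nonneg hw.nonneg

/-- the mean square of a Dirichlet polynomial of length `D T` -/
lemma msq (hMVT : MVT) {w : ℝ → ℝ} {θ C : ℝ} (hθ : 0 < θ) (hw : Wgt w θ C) :
    ∃ C3 : ℝ, 0 ≤ C3 ∧ ∀ T D : ℝ, 1 ≤ T → 1 ≤ D → ∀ P : DP,
      (∀ n, P.coeff n ≠ 0 → 1 ≤ n ∧ (n : ℝ) ≤ D * T) →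
      Iw w T (fun t => ‖ev t P‖ ^ 2) ≤ C3 * D ^ 2 * T * En P := by
  obtain ⟨C1, hC1, h1⟩ := hMVT w θ C hθ hw
  refine ⟨2 + 2 * C1, by positivity, ?_⟩
  intro T D hT hD P hP
  have hDT : 1 ≤ D * T := by nlinarith
  have h2 := h1 T (D * T) (D * T) hT hDT le_rfl P P hP hP
  have hT0 : 0 < T := by linarith
  have hE := En_nonneg P
  have e1 : (∫ t : ℝ, (w (t / T) : ℂ) * (ev t P * conj (ev t P)))
      = ((Iw w T (fun t => ‖ev t P‖ ^ 2) : ℝ) : ℂ) := by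
    unfold Iw
    rw [← integral_complex_ofReal]
    refine integral_congr_ae (ae_of_all _ fun t => ?_)
    simp only
    rw [Complex.mul_conj, Complex.normSq_eq_norm_sq]
    push_cast
    rfl
  rw [e1, ← Complex.ofReal_sub, Complex.norm_real, Real.norm_eq_abs] at h2
  have h3 := (abs_le.mp h2).2
  have e2 : Real.sqrt (En P) * Real.sqrt (En P) = En P := Real.mul_self_sqrt hE
  have e3 : Real.sqrt (D * T * (D * T)) = D * T := Real.sqrt_mul_self (by positivity)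
  rw [e3, mul_assoc (C1 / T * (D * T + (D * T) ^ 2)), e2] at h3
  have h4 : C1 / T * (D * T + (D * T) ^ 2) ≤ 2 * C1 * D ^ 2 * T := by
    have h5 : D * T + (D * T) ^ 2 ≤ 2 * (D * T) ^ 2 := by nlinarith
    calc C1 / T * (D * T + (D * T) ^ 2) ≤ C1 / T * (2 * (D * T) ^ 2) := by gcongr
      _ = 2 * C1 * D ^ 2 * T := by field_simp
  have h6 := integral_w_le hθ hw
  have h7 := integral_w_nonneg hw
  have hBK : BK K1 P P = En P := rfl
  rw [hBK] at h3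
  have h8 : T * (∫ u, w u) * En P ≤ 2 * D ^ 2 * T * En P := by
    have : T * (∫ u, w u) ≤ 2 * D ^ 2 * T := by
      have hD2 : 1 ≤ D ^ 2 := one_le_pow₀ hD
      nlinarith
    exact mul_le_mul_of_nonneg_right this hE
  have h9 : C1 / T * (D * T + (D * T) ^ 2) * En P ≤ 2 * C1 * D ^ 2 * T * En P :=
    mul_le_mul_of_nonneg_right h4 hE
  calc Iw w T (fun t => ‖ev t P‖ ^ 2)
      ≤ T * (∫ u, w u) * En P + C1 / T * (D * T + (D * T) ^ 2) * En P := by linarith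
    _ ≤ 2 * D ^ 2 * T * En P + 2 * C1 * D ^ 2 * T * En P := add_le_add h8 h9
    _ = _ := by ring

/-- support of a divisor polynomial -/
lemma sup_DF {h : ℝ → ℝ} {X2 : ℝ} (hr : ∀ x, X2 ≤ x → h x = 0) (N : ℕ) :
    Sup (Ln X2) (DF h N) := by
  unfold DF
  refine Sup.sum _ fun n hn => ?_
  have hn1 := (Finset.mem_Icc.mp hn).1
  rcases le_or_gt X2 (Real.log n) with hx | hx
  · rw [hr _ hx, mul_zero, MonoidAlgebra.single_zero]
    exact Sup.zero _
  · exact Sup.single (show n ∈ Ln X2 from ⟨hn1, hx.le⟩) _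

lemma le_of_Ln {X T : ℝ} (hT : 0 < T) {n : ℕ} (hn : n ∈ Ln X) (hX : X ≤ Real.log T) :
    1 ≤ n ∧ (n : ℝ) ≤ T := by
  refine ⟨hn.1, ?_⟩
  have h0 : (0 : ℝ) < n := by exact_mod_cast hn.1
  exact (Real.log_le_log_iff h0 hT).mp (hn.2.trans hX)

/-- mean square with a cap -/
lemma cap_msq {w : ℝ → ℝ} {θ C C3 : ℝ} (hw : Wgt w θ C)
    (hC3 : ∀ T D : ℝ, 1 ≤ T → 1 ≤ D → ∀ P : DP,
      (∀ n, P.coeff n ≠ 0 → 1 ≤ n ∧ (n : ℝ) ≤ D * T) →
      Iw w T (fun t => ‖ev t P‖ ^ 2) ≤ C3 * D ^ 2 * T * En P)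
    {T : ℝ} (hT : 1 ≤ T) {h : ℝ → ℝ} {X2 B : ℝ} (hr : ∀ x, X2 ≤ x → h x = 0) (N : ℕ)
    {c : ℝ} {v p0 : ℕ} {Y : ℝ} {i J : ℕ}
    (hB : ∀ s ∈ (Finset.Ico i J).powerset, Sup (Ln B) (Bt c v p0 Y i J s))
    (hX : X2 + B ≤ Real.log T) :
    Iw w T (fun t => ‖ev t (DF h N)‖ ^ 2 * cap c v p0 Y i J t)
      ≤ C3 * T * ∑ s ∈ (Finset.Ico i J).powerset, Wt v s * En (DF h N * Bt c v p0 Y i J s) := by
  have hT0 : 0 < T := by linarith
  rw [Iw_cap (f := fun t => ‖ev t (DF h N)‖ ^ 2) hw hT0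
    ((continuous_ev _).norm.pow 2).continuousOn, Finset.mul_sum]
  refine Finset.sum_le_sum fun s hs => ?_
  have h1 : ∀ n, (DF h N * Bt c v p0 Y i J s).coeff n ≠ 0 → 1 ≤ n ∧ (n : ℝ) ≤ 1 * T := by
    intro n hn
    have h2 := ((sup_DF hr N).mul (hB s hs) (C := Ln (X2 + B)) fun a ha b hb => Ln.mul ha hb) n hn
    rw [one_mul]
    exact le_of_Ln hT0 h2 hX
  have h2 := hC3 T 1 hT le_rfl _ h1
  have e : Iw w T (fun t => ‖ev t (DF h N * Bt c v p0 Y i J s)‖ ^ 2)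
      = ∫ t : ℝ, w (t / T) * (‖ev t (DF h N)‖ ^ 2 * ‖ev t (Bt c v p0 Y i J s)‖ ^ 2) := by
    unfold Iw
    refine integral_congr_ae (ae_of_all _ fun t => ?_)
    simp only
    rw [map_mul, norm_mul, mul_pow]
  rw [e] at h2
  have h3 := mul_le_mul_of_nonneg_left h2 (Wt_nonneg v s)
  refine h3.trans (le_of_eq ?_)
  ring

/-- supports of the block products -/
lemma sup_Bt_lam {v p0 : ℕ} {Y L σ : ℝ} {J : ℕ} (h : Par v p0 Y L σ J) {i : ℕ} (hi : i ≤ J)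
    (c : ℝ) : ∀ s ∈ (Finset.Ico i J).powerset,
      Sup (Ln (lam v Y L σ J (i + 1))) (Bt c v p0 Y i J s) := by
  intro s hs
  rw [Finset.mem_powerset] at hs
  rcases Nat.lt_or_ge i J with hk | hk
  · rw [lam_succ_of_lt hk]
    exact sup_Bt_Ln h.hv p0 (by linarith [h.hY]) i J c hs
  · have : i = J := by omega
    subst this
    rw [Finset.Ico_self, Finset.subset_empty] at hs
    subst hs
    have h1 : Bt c v p0 Y i i ∅ = 1 := by simp [Bt]
    rw [h1]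
    refine Sup.one ⟨le_rfl, ?_⟩
    rw [Nat.cast_one, Real.log_one]
    linarith [h.one_le_lam (i := i + 1) le_rfl]

end Pool.Agent.Lib.J4.H17
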