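import Pool.Agent.Lib.MP_f9aece_nt_h17.Mean

/-!
# JointFour, module P: shifted symbols
-/

set_option autoImplicit false

namespace Pool.Agent.Lib.J4.H17

open MeasureTheory Set Filter Topology Complex
open scoped ComplexConjugate
open Pool.Agent.Lib.MP_f9aece_nt (DP pair BK K1 ev ev1 evh PP VV Smo expo EE mom BK_K1_eq pair_def
  continuous_ev)
open Pool.Agent.Lib.MP_f9aece_nt_h97 (Sup)
open Pool.Agent.Lib.J4.H24 (cap cap_nonneg Wt_nonneg continuous_cap Iw_cap ev_DF)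

/-- the shifted divisor polynomial -/
noncomputable def DS' (f : ℝ → ℝ) (N : ℕ) (u : ℝ) : DP := DF (fun x => f (x + u)) N

lemma hasDerivAt_DS {f f1 : ℝ → ℝ} (hf : ∀ x, HasDerivAt f (f1 x) x) (N : ℕ) (t u : ℝ) :
    HasDerivAt (fun u : ℝ => ev t (DS' f N u)) (ev t (DS' f1 N u)) u := by
  unfold DS'
  simp only [ev_DF]
  refine HasDerivAt.fun_sum fun n _ => ?_
  have h1 : HasDerivAt (fun u : ℝ => f (Real.log n + u)) (f1 (Real.log n + u)) u :=
    (hf (Real.log n + u)).comp_const_add (Real.log n) u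
  exact ((h1.const_mul (dv n)).ofReal_comp).mul_const _

lemma continuous_DS {f : ℝ → ℝ} (hf : Continuous f) (N : ℕ) :
    Continuous (fun p : ℝ × ℝ => ev p.1 (DS' f N p.2)) := by
  unfold DS'
  simp only [ev_DF]
  refine continuous_finsetSum _ fun n hn => ?_
  have hn1 : 1 ≤ n := (Finset.mem_Icc.mp hn).1
  have hn0 : (n : ℂ) ≠ 0 := by exact_mod_cast (Nat.one_le_iff_ne_zero.mp hn1)
  refine Continuous.mul ?_ ?_
  · refine Complex.continuous_ofReal.comp (continuous_const.mul ?_)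
    exact hf.comp (continuous_const.add continuous_snd)
  · refine Continuous.const_cpow ?_ (Or.inl hn0)
    fun_prop

lemma continuous_DS_right {f : ℝ → ℝ} (hf : Continuous f) (N : ℕ) (t : ℝ) :
    Continuous (fun u : ℝ => ev t (DS' f N u)) := by
  have h1 : Continuous (fun u : ℝ => ((t, u) : ℝ × ℝ)) := continuous_const.prodMk continuous_id
  have h2 := (continuous_DS hf N).comp h1
  exact h2

lemma sq_integral_le {g : ℝ → ℝ} (hg : Continuous g) {A : ℝ} (hA : 0 ≤ A) :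
    (∫ u in (0 : ℝ)..A, g u) ^ 2 ≤ A * ∫ u in (0 : ℝ)..A, g u ^ 2 := by
  rcases hA.eq_or_lt with h | h
  · subst h; simp
  set m := (∫ u in (0 : ℝ)..A, g u) / A with hm
  have h1 : 0 ≤ ∫ u in (0 : ℝ)..A, (g u - m) ^ 2 :=
    intervalIntegral.integral_nonneg hA fun u _ => sq_nonneg _
  have h2 : ∫ u in (0 : ℝ)..A, (g u - m) ^ 2
      = (∫ u in (0 : ℝ)..A, g u ^ 2) - 2 * m * (∫ u in (0 : ℝ)..A, g u) + A * m ^ 2 := by
    have e : ∀ u, (g u - m) ^ 2 = g u ^ 2 - 2 * m * g u + m ^ 2 := fun u => by ring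
    simp only [e]
    rw [intervalIntegral.integral_add, intervalIntegral.integral_sub,
      intervalIntegral.integral_const_mul, intervalIntegral.integral_const]
    · simp
    · exact (hg.pow 2).intervalIntegrable _ _
    · exact (continuous_const.mul hg).intervalIntegrable _ _
    · exact ((hg.pow 2).sub (continuous_const.mul hg)).intervalIntegrable _ _
    · exact continuous_const.intervalIntegrable _ _
  rw [h2] at h1
  have h3 : (∫ u in (0 : ℝ)..A, g u) = m * A := by rw [hm]; field_simp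
  rw [h3] at h1 ⊢
  nlinarith

/-- a shift is controlled by the derivative -/
lemma shift_sq {f f1 : ℝ → ℝ} (hf : ∀ x, HasDerivAt f (f1 x) x) (hf1 : Continuous f1) (N : ℕ)
    {A τ : ℝ} (h0 : 0 ≤ τ) (hA : τ ≤ A) (t : ℝ) :
    ‖ev t (DS' f N τ) - ev t (DF f N)‖ ^ 2 ≤ A * ∫ u in (0 : ℝ)..A, ‖ev t (DS' f1 N u)‖ ^ 2 := by
  have hc : Continuous (fun u : ℝ => ev t (DS' f1 N u)) := continuous_DS_right hf1 N t
  have h1 : ∫ u in (0 : ℝ)..τ, ev t (DS' f1 N u) = ev t (DS' f N τ) - ev t (DF f N) := by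
    rw [intervalIntegral.integral_eq_sub_of_hasDerivAt (fun u _ => hasDerivAt_DS hf N t u)
      (hc.intervalIntegrable _ _)]
    have e : DS' f N 0 = DF f N := by unfold DS'; simp only [add_zero]
    rw [e]
  have h2 : ‖ev t (DS' f N τ) - ev t (DF f N)‖ ≤ ∫ u in (0 : ℝ)..A, ‖ev t (DS' f1 N u)‖ := by
    rw [← h1]
    refine (intervalIntegral.norm_integral_le_integral_norm h0).trans ?_
    have hi : IntervalIntegrable (fun u : ℝ => ‖ev t (DS' f1 N u)‖) volume 0 A :=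
      hc.norm.intervalIntegrable _ _
    have hnn : 0 ≤ᵐ[volume.restrict (Ioc 0 A)] (fun u : ℝ => ‖ev t (DS' f1 N u)‖) := by
      refine ae_of_all _ fun u => ?_
      simp only [Pi.zero_apply]
      exact norm_nonneg _
    exact intervalIntegral.integral_mono_interval le_rfl h0 hA hnn hi
  have h3 := sq_integral_le hc.norm (h0.trans hA)
  refine le_trans ?_ h3
  gcongr

/-- Fubini -/
lemma Iw_swap {w : ℝ → ℝ} {θ C T A : ℝ} (hw : Wgt w θ C) (hT : 0 < T) (hA : 0 ≤ A)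
    {F : ℝ → ℝ → ℝ} (hF : Continuous (fun p : ℝ × ℝ => F p.1 p.2)) {k : ℝ → ℝ}
    (hk : Continuous k) :
    Iw w T (fun t => (∫ u in (0 : ℝ)..A, F t u) * k t)
      = ∫ u in (0 : ℝ)..A, Iw w T (fun t => F t u * k t) := by
  unfold Iw
  rw [intervalIntegral.integral_of_le hA]
  have h1 : ∀ t : ℝ, w (t / T) * ((∫ u in (0 : ℝ)..A, F t u) * k t)
      = ∫ u in Ioc 0 A, w (t / T) * (F t u * k t) := by
    intro t
    rw [intervalIntegral.integral_of_le hA, ← integral_mul_const, ← integral_const_mul]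
  simp only [h1]
  refine integral_integral_swap ?_
  have hcont : Continuous (Function.uncurry fun t u : ℝ => w (t / T) * (F t u * k t)) := by
    have e : (Function.uncurry fun t u : ℝ => w (t / T) * (F t u * k t))
        = fun p : ℝ × ℝ => w (p.1 / T) * (F p.1 p.2 * k p.1) := rfl
    rw [e]
    exact (hw.cont24.comp (continuous_fst.div_const T)).mul (hF.mul (hk.comp continuous_fst))
  have hK : IntegrableOn (Function.uncurry fun t u : ℝ => w (t / T) * (F t u * k t))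
      (Icc (θ * T) (2 * T) ×ˢ Icc 0 A) (volume.prod volume) :=
    hcont.continuousOn.integrableOn_compact (isCompact_Icc.prod isCompact_Icc)
  have hU : IntegrableOn (Function.uncurry fun t u : ℝ => w (t / T) * (F t u * k t))
      (univ ×ˢ Ioc 0 A) (volume.prod volume) := by
    refine hK.of_forall_sdiff_eq_zero (MeasurableSet.univ.prod measurableSet_Ioc) ?_
    rintro ⟨t, u⟩ ⟨⟨_, hu⟩, hn⟩
    have ht : t ∉ Icc (θ * T) (2 * T) := fun ht => hn ⟨ht, Ioc_subset_Icc_self hu⟩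
    simp only [Function.uncurry_apply_pair]
    rw [hw.eq_zero24 hT ht, zero_mul]
  unfold IntegrableOn at hU
  rwa [← Measure.prod_restrict, Measure.restrict_univ] at hU

/-- the shift in the weighted integral -/
lemma Iw_shift_le {w : ℝ → ℝ} {θ C T A : ℝ} (hw : Wgt w θ C) (hT : 0 < T)
    {f f1 : ℝ → ℝ} (hf : ∀ x, HasDerivAt f (f1 x) x) (hf1 : Continuous f1) (N : ℕ)
    {τ : ℝ → ℝ} (hτ : ∀ t ∈ Icc (θ * T) (2 * T), 0 ≤ τ t ∧ τ t ≤ A) (hA : 0 ≤ A)
    {k : ℝ → ℝ} (hk : Continuous k) (hk0 : ∀ t, 0 ≤ k t) {M : ℝ}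
    (hM : ∀ u, 0 ≤ u → u ≤ A → Iw w T (fun t => ‖ev t (DS' f1 N u)‖ ^ 2 * k t) ≤ M) :
    Iw w T (fun t => ‖ev t (DS' f N (τ t)) - ev t (DF f N)‖ ^ 2 * k t) ≤ A ^ 2 * M := by
  have hF : Continuous (fun p : ℝ × ℝ => ‖ev p.1 (DS' f1 N p.2)‖ ^ 2) :=
    (continuous_DS hf1 N).norm.pow 2
  have hint : Continuous (fun t : ℝ => ∫ u in (0 : ℝ)..A, ‖ev t (DS' f1 N u)‖ ^ 2) :=
    intervalIntegral.continuous_parametric_intervalIntegral_of_continuous' hF 0 A
  have h1 : Iw w T (fun t => ‖ev t (DS' f N (τ t)) - ev t (DF f N)‖ ^ 2 * k t)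
      ≤ Iw w T (fun t => A * ((∫ u in (0 : ℝ)..A, ‖ev t (DS' f1 N u)‖ ^ 2) * k t)) := by
    refine Iw_mono hw hT ?_ ?_ ?_
    · exact (continuous_const.mul (hint.mul hk)).continuousOn
    · intro t _
      exact mul_nonneg (sq_nonneg _) (hk0 t)
    · intro t ht
      rw [← mul_assoc]
      exact mul_le_mul_of_nonneg_right (shift_sq hf hf1 N (hτ t ht).1 (hτ t ht).2 t) (hk0 t)
  rw [Iw_const_mul, Iw_swap hw hT hA hF hk] at h1
  have h2 : ∫ u in (0 : ℝ)..A, Iw w T (fun t => ‖ev t (DS' f1 N u)‖ ^ 2 * k t) ≤ M * A := by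
    have h3 : ‖∫ u in (0 : ℝ)..A, Iw w T (fun t => ‖ev t (DS' f1 N u)‖ ^ 2 * k t)‖ ≤ M * |A - 0| := by
      refine intervalIntegral.norm_integral_le_of_norm_le_const fun u hu => ?_
      rw [uIoc_of_le hA] at hu
      rw [Real.norm_eq_abs, abs_of_nonneg]
      · exact hM u hu.1.le hu.2
      · exact Iw_nonneg hw hT fun t _ => mul_nonneg (sq_nonneg _) (hk0 t)
    rw [sub_zero, abs_of_nonneg hA, Real.norm_eq_abs] at h3
    exact (le_abs_self _).trans h3
  calc _ ≤ A * (M * A) := h1.trans (mul_le_mul_of_nonneg_left h2 hA)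
    _ = A ^ 2 * M := by ring

end Pool.Agent.Lib.J4.H17
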