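import Pool.Agent.Lib.MP_f9aece_nt_h17.Shift

/-!
# JointFour, module P: mean values with the windows
-/

set_option autoImplicit false

namespace Pool.Agent.Lib.J4

open MeasureTheory Set Filter Topology Complex
open scoped ComplexConjugate
open Pool.Agent.Lib.MP_f9aece_nt (DP pair BK K1 ev ev1 evh PP VV Smo expo EE mom BK_K1_eq pair_def
  continuous_ev)
open Pool.Agent.Lib.MP_f9aece_nt_h97 (Sup)

namespace H17

open Pool.Agent.Lib.J4.H24 (cap cap_nonneg Wt_nonneg continuous_cap Iw_cap ev_DF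
  continuousOn_ev_DF continuous_win)

lemma tau_nonneg {T t : ℝ} (hT : 0 < T) (ht0 : 0 < t) (ht : t ≤ 2 * T) : 0 ≤ tau T t := by
  unfold tau
  have h1 : 1 ≤ 2 * Real.pi * T / t := by
    rw [le_div_iff₀ ht0]
    nlinarith [Real.pi_gt_three]
  have := Real.log_nonneg h1
  linarith

lemma tau_le {T t θ : ℝ} (hT : 0 < T) (hθ : 0 < θ) (ht : θ * T ≤ t) :
    tau T t ≤ 2 * Real.log (2 * Real.pi / θ) := by
  unfold tau
  have ht0 : 0 < t := lt_of_lt_of_le (mul_pos hθ hT) ht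
  have hpi := Real.pi_pos
  have h1 : 2 * Real.pi * T / t ≤ 2 * Real.pi / θ := by
    rw [div_le_div_iff₀ ht0 hθ]
    nlinarith
  have h2 : Real.log (2 * Real.pi * T / t) ≤ Real.log (2 * Real.pi / θ) :=
    Real.log_le_log (by positivity) h1
  linarith

lemma A_nonneg {θ : ℝ} (hθ : 0 < θ) (hθ1 : θ ≤ 1) : 0 ≤ 2 * Real.log (2 * Real.pi / θ) := by
  have h1 : 1 ≤ 2 * Real.pi / θ := by
    rw [le_div_iff₀ hθ]
    linarith [Real.pi_gt_three]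
  have := Real.log_nonneg h1
  linarith

/-- the content of `MidSum` for one symbol -/
def MidC (CM : ℝ) (v p0 : ℕ) (Y L : ℝ) (i J : ℕ) (c : ℝ) : Prop :=
  ∀ (A0 lm X1 X2 : ℝ) (f : ℝ → ℝ), Sym f A0 lm X1 X2 → 0 ≤ A0 → (i < J → Yg v Y i ≤ lm) →
    0 < lm → X1 ≤ X2 → 0 ≤ X2 → X2 ≤ L + 2 → ∀ N : ℕ, X2 ≤ Real.log (N + 1) →
    ∑ s ∈ (Finset.Ico i J).powerset, Wt v s * En (DF f N * Bt c v p0 Y i J s)
      ≤ CM * A0 ^ 2 * (X2 - X1 + Yg v Y i + 1) * (1 + L) ^ 3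
        * Real.exp ((c ^ 2 + 4 * c) * Vs v p0 Y i J + 32 * |c| * rg v i)

lemma log_floor {T : ℝ} (hT : 0 < T) : Real.log T ≤ Real.log ((⌊T⌋₊ : ℝ) + 1) :=
  Real.log_le_log hT (Nat.lt_floor_add_one T).le

/-- weighted mean value for one symbol -/
lemma cap_mid {w : ℝ → ℝ} {θ C C3 CM : ℝ} (hw : Wgt w θ C) (hC30 : 0 ≤ C3)
    (hC3 : ∀ T D : ℝ, 1 ≤ T → 1 ≤ D → ∀ P : DP,
      (∀ n, P.coeff n ≠ 0 → 1 ≤ n ∧ (n : ℝ) ≤ D * T) →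
      Iw w T (fun t => ‖ev t P‖ ^ 2) ≤ C3 * D ^ 2 * T * En P)
    {T : ℝ} (hT : 1 ≤ T) {v p0 : ℕ} {Y : ℝ} {i J : ℕ} {c : ℝ}
    (hM : MidC CM v p0 Y (Real.log T) i J c) {A0 lm X1 X2 B : ℝ} {f : ℝ → ℝ}
    (hf : Sym f A0 lm X1 X2) (hA0 : 0 ≤ A0) (hlm : i < J → Yg v Y i ≤ lm) (hlm0 : 0 < lm)
    (hX : X1 ≤ X2) (hX2 : 0 ≤ X2)
    (hB : ∀ s ∈ (Finset.Ico i J).powerset, Sup (Ln B) (Bt c v p0 Y i J s)) (hB0 : 0 ≤ B)
    (hXB : X2 + B ≤ Real.log T) :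
    Iw w T (fun t => ‖ev t (DF f ⌊T⌋₊)‖ ^ 2 * cap c v p0 Y i J t)
      ≤ C3 * T * (CM * A0 ^ 2 * (X2 - X1 + Yg v Y i + 1) * (1 + Real.log T) ^ 3
        * Real.exp ((c ^ 2 + 4 * c) * Vs v p0 Y i J + 32 * |c| * rg v i)) := by
  have hT0 : 0 < T := by linarith
  refine (cap_msq hw hC3 hT hf.right ⌊T⌋₊ hB hXB).trans ?_
  refine mul_le_mul_of_nonneg_left ?_ (by positivity)
  exact hM A0 lm X1 X2 f hf hA0 hlm hlm0 hX hX2 (by linarith) ⌊T⌋₊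
    (le_trans (by linarith) (log_floor hT0))

lemma arith_le {P CM Ex a b x y L : ℝ} (hP : 0 ≤ P) (hCM : 0 ≤ CM) (hEx : 0 ≤ Ex) (ha : 0 ≤ a)
    (hab : a ≤ b) (hx : 0 ≤ x) (hxy : x ≤ y) (hL : 1 ≤ L) :
    P * (CM * a ^ 2 * x * (1 + L) ^ 3 * Ex) ≤ P * (CM * b ^ 2 * y * (8 * L ^ 3) * Ex) := by
  have i2 : (1 + L) ^ 3 ≤ 8 * L ^ 3 := by
    have : (1 + L) ^ 3 ≤ (2 * L) ^ 3 := pow_le_pow_left₀ (by linarith) (by linarith) 3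
    calc (1 + L) ^ 3 ≤ (2 * L) ^ 3 := this
      _ = 8 * L ^ 3 := by ring
  have i3 : a ^ 2 ≤ b ^ 2 := pow_le_pow_left₀ ha hab 2
  have i4 : 0 ≤ (1 + L) ^ 3 := by positivity
  refine mul_le_mul_of_nonneg_left (mul_le_mul_of_nonneg_right (mul_le_mul
    (mul_le_mul (mul_le_mul_of_nonneg_left i3 hCM) hxy hx (by positivity)) i2 i4 ?_) hEx) hP
  exact mul_nonneg (by positivity) (hx.trans hxy)

lemma three_two (z1 z2 : ℂ) {k : ℝ} (hk : 0 ≤ k) :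
    (‖z1‖ ^ 2 + ‖z2‖ ^ 2) * k ≤ 3 * (‖z1‖ ^ 2 * k) + 2 * (‖z2 - z1‖ ^ 2 * k) := by
  have h1 : ‖z2‖ ≤ ‖z2 - z1‖ + ‖z1‖ := by
    have := norm_add_le (z2 - z1) z1
    rwa [sub_add_cancel] at this
  have h2 : ‖z2‖ ^ 2 ≤ 2 * ‖z2 - z1‖ ^ 2 + 2 * ‖z1‖ ^ 2 := by
    have h3 : ‖z2‖ ^ 2 ≤ (‖z2 - z1‖ + ‖z1‖) ^ 2 := pow_le_pow_left₀ (norm_nonneg _) h1 2
    have h4 := sq_nonneg (‖z2 - z1‖ - ‖z1‖)
    linarith
  have h5 : ‖z1‖ ^ 2 + ‖z2‖ ^ 2 ≤ 3 * ‖z1‖ ^ 2 + 2 * ‖z2 - z1‖ ^ 2 := by linarith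
  calc _ ≤ (3 * ‖z1‖ ^ 2 + 2 * ‖z2 - z1‖ ^ 2) * k := mul_le_mul_of_nonneg_right h5 hk
    _ = _ := by ring

lemma lin_le {A lm x : ℝ} (hA : 0 ≤ A) (hl : 1 ≤ lm) (hx : x ≤ 4 * lm + A) : x ≤ (A + 4) * lm := by
  have : A * 1 ≤ A * lm := mul_le_mul_of_nonneg_left hl hA
  linarith

/-- the window of index `i` -/
lemma window_bound {w : ℝ → ℝ} {θ C C3 CM K : ℝ} (hθ : 0 < θ) (hθ1 : θ ≤ 1) (hw : Wgt w θ C)
    (hC30 : 0 ≤ C3) (hC3 : ∀ T D : ℝ, 1 ≤ T → 1 ≤ D → ∀ P : DP,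
      (∀ n, P.coeff n ≠ 0 → 1 ≤ n ∧ (n : ℝ) ≤ D * T) →
      Iw w T (fun t => ‖ev t P‖ ^ 2) ≤ C3 * D ^ 2 * T * En P)
    (hCM : 0 ≤ CM) (hK : KC K) {T : ℝ} (hT : 1 ≤ T) {v p0 : ℕ} {Y σ : ℝ} {i J : ℕ} {c : ℝ}
    (h : Par v p0 Y (Real.log T) σ J) (hi : i ≤ J)
    (hM : MidC CM v p0 Y (Real.log T) i J c) {A : ℝ} (hA : A = 2 * Real.log (2 * Real.pi / θ)) :
    Iw w T (fun t => (‖ev t (DF (win v Y (Real.log T) σ J i) ⌊T⌋₊)‖ ^ 2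
      + ‖ev t (DF (fun x => win v Y (Real.log T) σ J i (x + tau T t)) ⌊T⌋₊)‖ ^ 2)
        * cap c v p0 Y i J t)
      ≤ ((3 + 2 * A ^ 2) * C3 * CM * (2 * K) ^ 2 * (A + 4) * 8) * T
        * lam v Y (Real.log T) σ J i * Real.log T ^ 3
        * Real.exp ((c ^ 2 + 4 * c) * Vs v p0 Y i J + 32 * |c| * rg v i) := by
  have hT0 : 0 < T := by linarith
  have hA0 : 0 ≤ A := by rw [hA]; exact A_nonneg hθ hθ1
  set L := Real.log T with hL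
  set f := win v Y L σ J i with hf
  set f1 := win1 v Y L σ J i with hf1
  set μ := lam v Y L σ J (i + 1) with hμ
  set lm := lam v Y L σ J i with hlm
  have hμ1 : 1 ≤ μ := h.one_le_lam (by omega)
  have hμl : μ ≤ lm := h.lam_anti hi
  have hlm0 : 0 < lm := by linarith
  have hL1 : 1 ≤ L := h.L_pos
  have hL0 : 0 < L := by linarith
  have hK1 := hK.one_le
  have hlq : lm ≤ σ * L := h.lam_le_quarter (by omega)
  have hq : σ * L ≤ 1 / 4 * L := mul_le_mul_of_nonneg_right h.hσ4 (by linarith)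
  have hYl : Yg v Y i ≤ lm := h.Yg_le_lam hi
  have hY0 : 0 < Yg v Y i := Yg_pos v (by linarith [h.hY]) i
  have sf : Sym f (2 * K) μ (L - 2 * lm) (L - μ) := sym_win hK h hi
  have sf1 : Sym f1 (2 * K / μ) μ (L - 2 * lm) (L - μ) := sym_win1 hK h hi
  set Ex := Real.exp ((c ^ 2 + 4 * c) * Vs v p0 Y i J + 32 * |c| * rg v i) with hEx
  have hEx0 : 0 < Ex := Real.exp_pos _
  set E := C3 * T * (CM * (2 * K) ^ 2 * ((A + 4) * lm) * (8 * L ^ 3) * Ex) with hE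
  have hB := sup_Bt_lam (p0 := p0) h hi c
  -- the unshifted energy
  have e0 : Iw w T (fun t => ‖ev t (DF f ⌊T⌋₊)‖ ^ 2 * cap c v p0 Y i J t) ≤ E := by
    refine (cap_mid hw hC30 hC3 hT hM sf (by positivity) (fun hh => h.Yg_le_lam_succ hh)
      (by linarith) (by linarith) (by linarith) hB (by linarith) (by linarith)).trans ?_
    exact arith_le (by positivity) hCM hEx0.le (by positivity) le_rfl (by linarith)
      (lin_le hA0 (hμ1.trans hμl) (by linarith)) hL1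
  have e1 : ∀ u, 0 ≤ u → u ≤ A →
      Iw w T (fun t => ‖ev t (DS' f1 ⌊T⌋₊ u)‖ ^ 2 * cap c v p0 Y i J t) ≤ E := by
    intro u hu0 huA
    have sfu := sf1.shift hu0 huA
    refine (cap_mid hw hC30 hC3 hT hM sfu (by positivity) (fun hh => h.Yg_le_lam_succ hh)
      (by linarith) (by linarith) (by linarith) hB (by linarith) (by linarith)).trans ?_
    exact arith_le (by positivity) hCM hEx0.le (by positivity)
      (div_le_self (by linarith) hμ1) (by linarith) (lin_le hA0 (hμ1.trans hμl) (by linarith)) hL1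
  have hτ : ∀ t ∈ Icc (θ * T) (2 * T), 0 ≤ tau T t ∧ tau T t ≤ A := by
    intro t ht
    have ht0 : 0 < t := lt_of_lt_of_le (mul_pos hθ hT0) ht.1
    exact ⟨tau_nonneg hT0 ht0 ht.2, by rw [hA]; exact tau_le hT0 hθ ht.1⟩
  have e2 := Iw_shift_le hw hT0 (hasDerivAt_win v Y L σ J i) sf1.cont ⌊T⌋₊ hτ hA0
    (continuous_cap c v p0 Y i J) (cap_nonneg c v p0 Y i J) e1
  -- combination
  have hcont1 : ContinuousOn (fun t => ‖ev t (DF f ⌊T⌋₊)‖ ^ 2 * cap c v p0 Y i J t)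
      (Icc (θ * T) (2 * T)) :=
    (((continuous_ev _).norm.pow 2).mul (continuous_cap c v p0 Y i J)).continuousOn
  have hcontS : ContinuousOn (fun t => ev t (DS' f ⌊T⌋₊ (tau T t))) (Icc (θ * T) (2 * T)) :=
    (continuousOn_ev_DF hT0 (continuous_win v Y L σ J i) _).mono fun _ ht =>
      lt_of_lt_of_le (mul_pos hθ hT0) ht.1
  have hcont2 : ContinuousOn (fun t => ‖ev t (DS' f ⌊T⌋₊ (tau T t)) - ev t (DF f ⌊T⌋₊)‖ ^ 2
      * cap c v p0 Y i J t) (Icc (θ * T) (2 * T)) :=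
    ((hcontS.sub (continuous_ev _).continuousOn).norm.pow 2).mul
      (continuous_cap c v p0 Y i J).continuousOn
  have key : Iw w T (fun t => (‖ev t (DF f ⌊T⌋₊)‖ ^ 2
      + ‖ev t (DF (fun x => f (x + tau T t)) ⌊T⌋₊)‖ ^ 2) * cap c v p0 Y i J t)
      ≤ Iw w T (fun t => 3 * (‖ev t (DF f ⌊T⌋₊)‖ ^ 2 * cap c v p0 Y i J t)
        + 2 * (‖ev t (DS' f ⌊T⌋₊ (tau T t)) - ev t (DF f ⌊T⌋₊)‖ ^ 2 * cap c v p0 Y i J t)) := by
    refine Iw_mono hw hT0 ?_ ?_ ?_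
    · exact (continuousOn_const.mul hcont1).add (continuousOn_const.mul hcont2)
    · intro t _
      exact mul_nonneg (by positivity) (cap_nonneg _ _ _ _ _ _ _)
    · intro t _
      have hc0 := cap_nonneg c v p0 Y i J t
      have e : DF (fun x => f (x + tau T t)) ⌊T⌋₊ = DS' f ⌊T⌋₊ (tau T t) := rfl
      rw [e]
      set z1 := ev t (DF f ⌊T⌋₊)
      set z2 := ev t (DS' f ⌊T⌋₊ (tau T t))
      exact three_two z1 z2 hc0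
  rw [Iw_add (f := fun t => 3 * (‖ev t (DF f ⌊T⌋₊)‖ ^ 2 * cap c v p0 Y i J t))
      (g := fun t => 2 * (‖ev t (DS' f ⌊T⌋₊ (tau T t)) - ev t (DF f ⌊T⌋₊)‖ ^ 2
        * cap c v p0 Y i J t)) hw hT0 (continuousOn_const.mul hcont1)
      (continuousOn_const.mul hcont2), Iw_const_mul, Iw_const_mul] at key
  refine key.trans ?_
  calc 3 * Iw w T (fun t => ‖ev t (DF f ⌊T⌋₊)‖ ^ 2 * cap c v p0 Y i J t)
        + 2 * Iw w T (fun t => ‖ev t (DS' f ⌊T⌋₊ (tau T t)) - ev t (DF f ⌊T⌋₊)‖ ^ 2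
          * cap c v p0 Y i J t)
      ≤ 3 * E + 2 * (A ^ 2 * E) := by
        refine add_le_add (mul_le_mul_of_nonneg_left e0 (by norm_num))
          (mul_le_mul_of_nonneg_left e2 (by norm_num))
    _ = _ := by rw [hE]; ring

/-- parameters -/
lemma par_of {v p0 : ℕ} (hv : 2 ≤ v) (hp : 3 ≤ p0) {σ : ℝ} (hσ : 0 < σ) (hσ4 : σ ≤ 1 / 4) {Λ : ℝ}
    (hΛ : max 1 (200000 * v / σ) ≤ Λ) {T : ℝ} (hT : Real.exp Λ ≤ T) {J : ℕ}
    (hJ : Jok v p0 (Real.log T / Λ) J) : Par v p0 (Real.log T / Λ) (Real.log T) σ J := by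
  have hΛ1 : 1 ≤ Λ := (le_max_left _ _).trans hΛ
  have hΛ0 : 0 < Λ := by linarith
  have hT0 : 0 < T := (Real.exp_pos _).trans_le hT
  have hL : Λ ≤ Real.log T := (Real.le_log_iff_exp_le hT0).mpr hT
  refine ⟨hv, hp, ?_, ?_, hσ, hσ4, ?_, hJ⟩
  · rw [le_div_iff₀ hΛ0]; linarith
  · rw [div_le_iff₀ hΛ0]; nlinarith
  · have h1 : 200000 * v / σ ≤ Λ := (le_max_right _ _).trans hΛ
    rw [div_le_iff₀ hσ] at h1
    rw [← mul_div_assoc, div_le_iff₀ hΛ0]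
    have h2 : 0 ≤ Real.log T := by linarith
    nlinarith

lemma midC_of {CM : ℝ} {v0 p1 : ℕ} (hM : ∀ v p0 : ℕ, v0 ≤ v → p1 ≤ p0 →
    ∀ (Y L : ℝ) (i J : ℕ),
    1 ≤ Y → Y ≤ L → i ≤ J → Jok v p0 Y J →
    ∀ (c A0 lm X1 X2 : ℝ) (f : ℝ → ℝ), |c| ≤ 1 / 1000 → 0 ≤ A0 → (i < J → Yg v Y i ≤ lm) → 0 < lm →
    (∀ x, |f x| ≤ A0) → (∀ x y, |f x - f y| ≤ A0 / lm * |x - y|) →
    (∀ x, X2 ≤ x → f x = 0) → (∀ x, x ≤ X1 → f x = 0) → X1 ≤ X2 → 0 ≤ X2 → X2 ≤ L + 2 →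
    ∀ N : ℕ, X2 ≤ Real.log (N + 1) →
    ∑ s ∈ (Finset.Ico i J).powerset, Wt v s * En (DF f N * Bt c v p0 Y i J s)
      ≤ CM * A0 ^ 2 * (X2 - X1 + Yg v Y i + 1) * (1 + L) ^ 3
        * Real.exp ((c ^ 2 + 4 * c) * Vs v p0 Y i J + 32 * |c| * rg v i)) {v p0 : ℕ}
    (hv : v0 ≤ v) (hp : p1 ≤ p0) {Y L : ℝ} {i J : ℕ} (hY : 1 ≤ Y) (hYL : Y ≤ L) (hi : i ≤ J)
    (hJ : Jok v p0 Y J) {c : ℝ} (hc : |c| ≤ 1 / 1000) : MidC CM v p0 Y L i J c := by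
  intro A0 lm X1 X2 f hf hA0 hlm hlm0 hX hX2 hXL N hN
  exact hM v p0 hv hp Y L i J hY hYL hi hJ c A0 lm X1 X2 f hc hA0 hlm hlm0 hf.bound hf.lip hf.right
    hf.left hX hX2 hXL N hN

end H17

end Pool.Agent.Lib.J4
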