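import Pool.Agent.Lib.MP_f9aece_nt_h17.Win

/-!
# JointFour, module P: the theorems `winInt` and `shInt`
-/

set_option autoImplicit false

namespace Pool.Agent.Lib.J4

open MeasureTheory Set Filter Topology Complex
open scoped ComplexConjugate
open Pool.Agent.Lib.MP_f9aece_nt (DP pair BK K1 ev ev1 evh PP VV Smo expo EE mom BK_K1_eq pair_def
  continuous_ev)
open Pool.Agent.Lib.MP_f9aece_nt_h97 (Sup)

open H17
open Pool.Agent.Lib.J4.H24 (cap cap_nonneg Wt_nonneg continuous_cap Iw_cap ev_DF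
  continuousOn_ev_DF continuous_win)

/-- mean values with the windows -/
theorem winInt (hMVT : MVT) (hMid : MidSum) : WinInt := by
  obtain ⟨CM, v0, p1, hCM, hM⟩ := hMid
  obtain ⟨K, hK⟩ := exists_KC
  refine ⟨max v0 2, max p1 3, ?_⟩
  intro w θ C hθ hθ1 hw
  obtain ⟨C3, hC30, hC3⟩ := msq hMVT hθ hw
  set A : ℝ := 2 * Real.log (2 * Real.pi / θ) with hA
  have hA0 : 0 ≤ A := A_nonneg hθ hθ1
  have hK1 := hK.one_le
  refine ⟨(3 + 2 * A ^ 2) * C3 * CM * (2 * K) ^ 2 * (A + 4) * 8, by positivity, ?_⟩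
  intro v p0 hv hp σ hσ hσ4
  have hv0 := (le_max_left _ _).trans hv
  have hv2 := (le_max_right _ _).trans hv
  have hp1 := (le_max_left _ _).trans hp
  have hp3 := (le_max_right _ _).trans hp
  refine ⟨max 1 (200000 * v / σ), le_max_left _ _, ?_⟩
  intro Λ hΛ
  have hΛ1 : 1 ≤ Λ := (le_max_left _ _).trans hΛ
  refine ⟨Real.exp Λ, Real.one_le_exp (by linarith), ?_⟩
  intro T hT J hJ i hi c hc
  have hT1 : 1 ≤ T := (Real.one_le_exp (by linarith)).trans hT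
  have hT0 : 0 < T := by linarith
  have h := par_of hv2 hp3 hσ hσ4 hΛ hT hJ
  have hmid : MidC CM v p0 (Real.log T / Λ) (Real.log T) i J c :=
    midC_of hM hv0 hp1 h.hY h.hYL hi hJ hc
  have key := window_bound hθ hθ1 hw hC30 hC3 hCM hK hT1 h hi hmid hA
  have hcontS : ContinuousOn (fun t => ev t
      (DF (fun x => win v (Real.log T / Λ) (Real.log T) σ J i (x + tau T t)) ⌊T⌋₊))
      (Icc (θ * T) (2 * T)) :=
    (continuousOn_ev_DF hT0 (continuous_win v _ _ σ J i) _).mono fun _ ht =>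
      lt_of_lt_of_le (mul_pos hθ hT0) ht.1
  rw [Iw_cap (f := fun t => ‖ev t (DF (win v (Real.log T / Λ) (Real.log T) σ J i) ⌊T⌋₊)‖ ^ 2
    + ‖ev t (DF (fun x => win v (Real.log T / Λ) (Real.log T) σ J i (x + tau T t)) ⌊T⌋₊)‖ ^ 2)
    hw hT0 (((continuous_ev _).norm.pow 2).continuousOn.add (hcontS.norm.pow 2))] at key
  exact key

/-- the shift of the short polynomial -/
theorem shInt (hMVT : MVT) (hMid : MidSum) : ShInt := by
  obtain ⟨CM, v0, p1, hCM, hM⟩ := hMid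
  obtain ⟨K, hK⟩ := exists_KC
  refine ⟨max v0 2, max p1 3, ?_⟩
  intro w θ C hθ hθ1 hw
  obtain ⟨C3, hC30, hC3⟩ := msq hMVT hθ hw
  set A : ℝ := 2 * Real.log (2 * Real.pi / θ) with hA
  have hA0 : 0 ≤ A := A_nonneg hθ hθ1
  have hK1 := hK.one_le
  refine ⟨A ^ 2 * C3 * CM * K ^ 2 * (A + 3) * 8, by positivity, ?_⟩
  intro v p0 hv hp σ hσ hσ4
  have hv0 := (le_max_left _ _).trans hv
  have hv2 := (le_max_right _ _).trans hv
  have hp1 := (le_max_left _ _).trans hp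
  have hp3 := (le_max_right _ _).trans hp
  refine ⟨max 1 (200000 * v / σ), le_max_left _ _, ?_⟩
  intro Λ hΛ
  have hΛ1 : 1 ≤ Λ := (le_max_left _ _).trans hΛ
  refine ⟨Real.exp Λ, Real.one_le_exp (by linarith), ?_⟩
  intro T hT J hJ c hc
  have hT1 : 1 ≤ T := (Real.one_le_exp (by linarith)).trans hT
  have hT0 : 0 < T := by linarith
  have h := par_of hv2 hp3 hσ hσ4 hΛ hT hJ
  set Y := Real.log T / Λ with hY
  have hmid : MidC CM v p0 Y (Real.log T) 0 J c :=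
    midC_of hM hv0 hp1 h.hY h.hYL (Nat.zero_le _) hJ hc
  set L := Real.log T with hL
  have hL1 : 1 ≤ L := h.L_pos
  have hq : σ * L ≤ 1 / 4 * L := mul_le_mul_of_nonneg_right hσ4 (by linarith)
  have hYσ : Y ≤ σ * L := h.Y_le_σL
  have hY1 : 1 ≤ Y := h.hY
  have hσL0 : 0 < σ * L := by positivity
  set f := cu (L - σ * L) (σ * L) with hf
  set f1 := cu1 (L - σ * L) (σ * L) with hf1
  have sf1 : Sym f1 (K / (σ * L)) (σ * L) (L - σ * L - σ * L) (L - σ * L) :=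
    sym_cu1 hK _ hσL0
  set Ex := Real.exp ((c ^ 2 + 4 * c) * Vs v p0 Y 0 J + 32 * |c| * rg v 0) with hEx
  have hEx0 : 0 < Ex := Real.exp_pos _
  set E := C3 * T * (CM * (K / (σ * L)) ^ 2 * ((A + 3) * L) * (8 * L ^ 3) * Ex) with hE
  have hB : ∀ s ∈ (Finset.Ico 0 J).powerset, Sup (Ln (σ * L)) (Bt c v p0 Y 0 J s) := by
    intro s hs
    rw [Finset.mem_powerset] at hs
    refine (sup_Bt_Ln hv2 p0 (by linarith) 0 J c hs).mono (Ln.mono ?_)
    rw [Yg_zero]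
    have := h.hσL
    push_cast
    linarith
  have e1 : ∀ u, 0 ≤ u → u ≤ A →
      Iw w T (fun t => ‖ev t (DS' f1 ⌊T⌋₊ u)‖ ^ 2 * cap c v p0 Y 0 J t) ≤ E := by
    intro u hu0 huA
    have sfu := sf1.shift hu0 huA
    refine (cap_mid hw hC30 hC3 hT1 hmid sfu (by positivity)
      (fun _ => by rw [Yg_zero]; exact hYσ)
      hσL0 (by linarith) (by linarith) hB hσL0.le (by linarith)).trans ?_
    rw [Yg_zero]
    exact arith_le (by positivity) hCM hEx0.le (by positivity) le_rfl (by linarith)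
      (by nlinarith [h.hYL]) hL1
  have hτ : ∀ t ∈ Icc (θ * T) (2 * T), 0 ≤ tau T t ∧ tau T t ≤ A := by
    intro t ht
    have ht0 : 0 < t := lt_of_lt_of_le (mul_pos hθ hT0) ht.1
    exact ⟨tau_nonneg hT0 ht0 ht.2, by rw [hA]; exact tau_le hT0 hθ ht.1⟩
  have e2 := Iw_shift_le hw hT0 (hasDerivAt_cu (L - σ * L) (σ * L)) sf1.cont ⌊T⌋₊ hτ hA0
    (continuous_cap c v p0 Y 0 J) (cap_nonneg c v p0 Y 0 J) e1
  have hcontS : ContinuousOn (fun t => ev t (DS' f ⌊T⌋₊ (tau T t))) (Icc (θ * T) (2 * T)) :=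
    (continuousOn_ev_DF hT0 (continuous_cu _ _) _).mono fun _ ht =>
      lt_of_lt_of_le (mul_pos hθ hT0) ht.1
  rw [Iw_cap (f := fun t => ‖ev t (DS' f ⌊T⌋₊ (tau T t)) - ev t (DF f ⌊T⌋₊)‖ ^ 2) hw hT0
    ((hcontS.sub (continuous_ev _).continuousOn).norm.pow 2), ← Finset.range_eq_Ico] at e2
  refine le_trans (le_of_eq rfl) (e2.trans (le_of_eq ?_))
  rw [hE]
  field_simp

end Pool.Agent.Lib.J4
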